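import Pool.Agent.Lib.MP_9f4369_gt.Final

/-!
# The algebra is not ring isomorphic to `C(X, ℝ)` for any topological space `X`
-/

set_option autoImplicit false

namespace Pool.Agent.Lib.MP_9f4369_gt

open Set Filter Topology

lemma no_ring_iso {X : Type*} [TopologicalSpace X] (Φ : Al ≃+* C(X, ℝ)) : False := by
  have hσ : ∀ y : X, ∃ x : Pnt, ∀ a : Al, Φ a y = vl a x := by
    intro y
    obtain ⟨x, hx⟩ := classify ((ContinuousMap.evalAlgHom ℝ ℝ y).toRingHom.comp
      (Φ : Al ≃+* C(X, ℝ)).toRingHom)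
    exact ⟨x, fun a => hx a⟩
  choose σ hσ using hσ
  have hopen : ∀ a : Al, IsOpen {z | Φ a z ≠ 0} := fun a =>
    isOpen_ne_fun (Φ a).continuous continuous_const
  have hF : Continuous (fun y => hgt (σ y)) := by
    rw [continuous_iff_continuousAt]
    intro y
    rw [Metric.continuousAt_iff']
    intro ε hε
    rcases hy : σ y with ⟨n, u⟩ | b
    · have h1 : y ∈ {z | Φ (ptA n u) z ≠ 0} := by
        change Φ (ptA n u) y ≠ 0
        rw [hσ, hy]
        exact ptA_self n u
      filter_upwards [(hopen (ptA n u)).mem_nhds h1] with z hz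
      have h2 : Φ (ptA n u) z ≠ 0 := hz
      rw [hσ] at h2
      rw [eq_of_ptA h2, dist_self]
      exact hε
    · obtain ⟨k, hk⟩ := hgt_cont b ε hε
      have h1 : y ∈ {z | Φ (nbA b k) z ≠ 0} := by
        change Φ (nbA b k) y ≠ 0
        rw [hσ, hy]
        exact nbA_inr b k
      filter_upwards [(hopen (nbA b k)).mem_nhds h1] with z hz
      have h2 : Φ (nbA b k) z ≠ 0 := hz
      rw [hσ] at h2
      rw [Real.dist_eq]
      exact hk _ (mem_Nb_of_nbA h2)
  let F : C(X, ℝ) := ⟨fun y => hgt (σ y), hF⟩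
  apply not_isB_of_eq_hgt (vl_isB (Φ.symm F))
  rintro ⟨n, u⟩
  obtain ⟨y, hy⟩ : ∃ y, σ y = Sum.inl (n, u) := by
    by_contra hc
    push Not at hc
    have h0 : Φ (ptA n u) = 0 := by
      ext y
      rw [hσ, ContinuousMap.zero_apply]
      by_contra hne
      exact hc y (eq_of_ptA hne)
    have h1 : ptA n u = 0 := by
      apply Φ.injective
      rw [h0, map_zero]
    apply ptA_self n u
    rw [h1, vl_zero]
  rw [← hy, ← hσ, RingEquiv.apply_symm_apply]
  rfl

end Pool.Agent.Lib.MP_9f4369_gt
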