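import Pool.Agent.Lib.MP_9f4369_gt.Homs

/-!
# The lattice-ordered algebra and its properties
-/

set_option autoImplicit false

namespace Pool.Agent.Lib.MP_9f4369_gt

open Set Filter Topology

/-- The algebra of the counterexample. -/
def Al : Type := ↥BA

noncomputable instance instCommRingAl : CommRing Al := inferInstanceAs (CommRing ↥BA)
noncomputable instance instAlgebraAl : Algebra ℝ Al := inferInstanceAs (Algebra ℝ ↥BA)

/-- Underlying function of an element. -/
def vl (a : Al) : Pnt → ℝ := Subtype.val (p := fun h => h ∈ BA) a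

/-- Constructor. -/
def mkA (h : Pnt → ℝ) (hh : IsB h) : Al := (⟨h, hh⟩ : ↥BA)

lemma vl_mkA (h : Pnt → ℝ) (hh : IsB h) : vl (mkA h hh) = h := rfl

lemma vl_isB (a : Al) : IsB (vl a) := Subtype.property (p := fun h => h ∈ BA) a

lemma vl_ext {a b : Al} (h : ∀ x, vl a x = vl b x) : a = b :=
  Subtype.ext (funext h)

lemma vl_add (a b : Al) (x : Pnt) : vl (a + b) x = vl a x + vl b x := rfl
lemma vl_mul (a b : Al) (x : Pnt) : vl (a * b) x = vl a x * vl b x := rfl
lemma vl_neg (a : Al) (x : Pnt) : vl (-a) x = -vl a x := rfl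
lemma vl_sub (a b : Al) (x : Pnt) : vl (a - b) x = vl a x - vl b x := rfl
lemma vl_zero (x : Pnt) : vl (0 : Al) x = 0 := rfl
lemma vl_one (x : Pnt) : vl (1 : Al) x = 1 := rfl
lemma vl_smul (r : ℝ) (a : Al) (x : Pnt) : vl (r • a) x = r * vl a x := rfl
lemma vl_algebraMap (r : ℝ) (x : Pnt) : vl (algebraMap ℝ Al r) x = r := rfl

noncomputable instance instLatticeAl : Lattice Al where
  le a b := ∀ x, vl a x ≤ vl b x
  le_refl a x := le_rfl
  le_trans a b c hab hbc x := (hab x).trans (hbc x)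
  le_antisymm a b hab hba := vl_ext (fun x => le_antisymm (hab x) (hba x))
  sup a b := mkA (fun x => vl a x ⊔ vl b x) (IsB.sup (vl_isB a) (vl_isB b))
  le_sup_left a b x := le_sup_left
  le_sup_right a b x := le_sup_right
  sup_le a b c h1 h2 x := sup_le (h1 x) (h2 x)
  inf a b := mkA (fun x => vl a x ⊓ vl b x) (IsB.inf (vl_isB a) (vl_isB b))
  inf_le_left a b x := inf_le_left
  inf_le_right a b x := inf_le_right
  le_inf a b c h1 h2 x := le_inf (h1 x) (h2 x)

lemma le_iff (a b : Al) : a ≤ b ↔ ∀ x, vl a x ≤ vl b x := Iff.rfl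
lemma vl_sup (a b : Al) (x : Pnt) : vl (a ⊔ b) x = vl a x ⊔ vl b x := rfl
lemma vl_inf (a b : Al) (x : Pnt) : vl (a ⊓ b) x = vl a x ⊓ vl b x := rfl
lemma vl_abs (a : Al) (x : Pnt) : vl |a| x = |vl a x| := rfl

lemma vl_nsmul (n : ℕ) (a : Al) (x : Pnt) : vl (n • a) x = n * vl a x := by
  induction n with
  | zero => rw [zero_smul, vl_zero, Nat.cast_zero, zero_mul]
  | succ n ih => rw [succ_nsmul, vl_add, ih, Nat.cast_succ]; ring

/-! ### Order axioms -/

lemma ax_add (a b c : Al) (h : a ≤ b) : a + c ≤ b + c := by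
  intro x
  rw [vl_add, vl_add]
  exact add_le_add_left (h x) _

lemma ax_mul (a b : Al) (ha : 0 ≤ a) (hb : 0 ≤ b) : 0 ≤ a * b :=
  fun x => mul_nonneg (ha x) (hb x)

lemma ax_smul (r : ℝ) (a : Al) (hr : 0 ≤ r) (ha : 0 ≤ a) : 0 ≤ r • a :=
  fun x => mul_nonneg hr (ha x)

lemma ax_arch (a b : Al) (h : ∀ n : ℕ, n • a ≤ b) : a ≤ 0 := by
  intro x
  rw [vl_zero]
  by_contra hc
  push Not at hc
  obtain ⟨n, hn⟩ := exists_nat_gt (vl b x / vl a x)
  have h1 := h n x
  rw [vl_nsmul] at h1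
  rw [div_lt_iff₀ hc] at hn
  linarith

lemma ax_one : (0 : Al) ≤ 1 := fun x => by
  rw [vl_zero, vl_one]
  exact zero_le_one

lemma ax_unit (a : Al) (h : (1 : Al) ⊓ |a| = 0) : a = 0 := by
  apply vl_ext
  intro x
  have h1 : vl ((1 : Al) ⊓ |a|) x = vl (0 : Al) x := by rw [h]
  rw [vl_inf, vl_abs, vl_one, vl_zero] at h1
  rw [vl_zero]
  by_contra hc
  have h2 : 0 < |vl a x| := abs_pos.mpr hc
  have h3 : (0:ℝ) < 1 ⊓ |vl a x| := lt_inf_iff.mpr ⟨one_pos, h2⟩
  linarith

/-! ### Real ideals -/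

/-- Evaluation. -/
noncomputable def ev (x : Pnt) : Al →+* ℝ where
  toFun a := vl a x
  map_one' := rfl
  map_mul' _ _ := rfl
  map_zero' := rfl
  map_add' _ _ := rfl

lemma ev_apply (x : Pnt) (a : Al) : ev x a = vl a x := rfl

lemma ev_surj (x : Pnt) : Function.Surjective (ev x) :=
  fun r => ⟨algebraMap ℝ Al r, vl_algebraMap r x⟩

/-- The ideal of functions vanishing at a point. -/
noncomputable def MM (x : Pnt) : Ideal Al := RingHom.ker (ev x)

lemma MM_maximal (x : Pnt) : (MM x).IsMaximal :=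
  RingHom.ker_isMaximal_of_surjective (ev x) (ev_surj x)

/-- The quotient is the reals. -/
noncomputable def quo (x : Pnt) : Al ⧸ MM x ≃+* ℝ :=
  RingHom.quotientKerEquivOfSurjective (ev_surj x)

lemma quo_mk (x : Pnt) (a : Al) : quo x (Ideal.Quotient.mk (MM x) a) = vl a x := rfl

lemma classify (ψ : Al →+* ℝ) : ∃ x : Pnt, ∀ a : Al, ψ a = vl a x := hom_classify ψ

lemma real_ideal (M : Ideal Al) (φ : Al ⧸ M ≃+* ℝ) :
    ∃ x, (∀ a, φ (Ideal.Quotient.mk M a) = vl a x) ∧ M = MM x := by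
  obtain ⟨x, hx⟩ := classify ((φ : Al ⧸ M →+* ℝ).comp (Ideal.Quotient.mk M))
  have hx' : ∀ a, φ (Ideal.Quotient.mk M a) = vl a x := hx
  refine ⟨x, hx', ?_⟩
  ext a
  rw [← Ideal.Quotient.eq_zero_iff_mem, MM, RingHom.mem_ker, ev_apply, ← hx' a,
    map_eq_zero_iff φ φ.injective]

lemma cond1 (a : Al) (h : ∀ M : Ideal Al, M.IsMaximal → Nonempty (Al ⧸ M ≃+* ℝ) → a ∈ M) :
    a = 0 := by
  apply vl_ext
  intro x
  have := h (MM x) (MM_maximal x) ⟨quo x⟩
  rw [MM, RingHom.mem_ker] at this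
  exact this

lemma cond2 (s : ℕ → Al) (f : Ideal Al → ℝ)
    (h : ∀ ε : ℝ, 0 < ε → ∃ N : ℕ, ∀ n : ℕ, N ≤ n → ∀ M : Ideal Al, M.IsMaximal →
      ∀ φ : Al ⧸ M ≃+* ℝ, |φ (Ideal.Quotient.mk M (s n)) - f M| ≤ ε) :
    ∃ a : Al, ∀ M : Ideal Al, M.IsMaximal →
      ∀ φ : Al ⧸ M ≃+* ℝ, φ (Ideal.Quotient.mk M a) = f M := by
  refine ⟨mkA (fun x => f (MM x)) (IsB.of_uniform ?_), ?_⟩
  · intro ε hε
    obtain ⟨N, hN⟩ := h ε hε
    refine ⟨vl (s N), vl_isB (s N), fun x => ?_⟩
    have := hN N le_rfl (MM x) (MM_maximal x) (quo x)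
    rw [quo_mk] at this
    exact this
  · intro M _ φ
    obtain ⟨x, hx, hM⟩ := real_ideal M φ
    rw [hx, vl_mkA, ← hM]

lemma cross {D : Ideal Al} (φ : D →ₗ[Al] Al) (d d' : D) :
    (d : Al) * φ d' = (d' : Al) * φ d := by
  have h1 : (d : Al) • d' = (d' : Al) • d := by
    apply Subtype.ext
    change (d : Al) * (d' : Al) = (d' : Al) * (d : Al)
    exact mul_comm _ _
  have h2 := congrArg φ h1
  rw [map_smul, map_smul] at h2
  exact h2

lemma cond3 (D : Ideal Al)
    (hD : ∀ M : Ideal Al, M.IsMaximal → Nonempty (Al ⧸ M ≃+* ℝ) → ¬ D ≤ M)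
    (φ : D →ₗ[Al] Al) : ∃ c : Al, ∀ d : D, φ d = c * (d : Al) := by
  have hd : ∀ x : Pnt, ∃ d : D, vl (d : Al) x ≠ 0 := by
    intro x
    have h1 := hD (MM x) (MM_maximal x) ⟨quo x⟩
    by_contra hc
    push Not at hc
    apply h1
    intro d hd
    rw [MM, RingHom.mem_ker]
    exact hc ⟨d, hd⟩
  choose w hw using hd
  let c : Pnt → ℝ := fun x => vl (φ (w x)) x / vl (w x : Al) x
  have hc : ∀ (d : D) (x : Pnt), vl (φ d) x = c x * vl (d : Al) x := by
    intro d x
    have h1 := congrArg (fun a => vl a x) (cross φ (w x) d)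
    have h2 : vl (w x : Al) x * vl (φ d) x = vl (d : Al) x * vl (φ (w x)) x := h1
    have h3 := hw x
    change vl (φ d) x = vl (φ (w x)) x / vl (w x : Al) x * vl (d : Al) x
    field_simp
    linarith
  have hL : LocB c := by
    intro b
    set d : D := w (Sum.inr b) with hdd
    set δ : ℝ := |vl (d : Al) (Sum.inr b)| with hδ
    have hδ0 : 0 < δ := abs_pos.mpr (hw (Sum.inr b))
    obtain ⟨k, hk⟩ := (vl_isB (d : Al)).1 b (δ / 2) (by positivity)
    have hpos : ∀ y, (0:ℝ) < (vl (d : Al) y * vl (d : Al) y) ⊔ (δ / 2 * (δ / 2)) := by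
      intro y
      refine lt_of_lt_of_le ?_ le_sup_right
      positivity
    refine ⟨fun y => vl (φ d) y * vl (d : Al) y *
      ((vl (d : Al) y * vl (d : Al) y) ⊔ (δ / 2 * (δ / 2)))⁻¹, ?_, k, ?_⟩
    · refine IsB.mul (IsB.mul (vl_isB _) (vl_isB _)) (IsB.inv ?_ (fun y => (hpos y).ne'))
      exact IsB.sup (IsB.mul (vl_isB _) (vl_isB _)) (IsB.const _)
    · intro y hy
      have h1 := hk y hy
      have h2 : δ / 2 < |vl (d : Al) y| := by
        have h3 : δ ≤ |vl (d : Al) y - vl (d : Al) (Sum.inr b)| + |vl (d : Al) y| := by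
          have := abs_sub (vl (d : Al) y) (vl (d : Al) y - vl (d : Al) (Sum.inr b))
          rw [sub_sub_cancel] at this
          rw [hδ]
          linarith
        linarith
      have h4 : δ / 2 * (δ / 2) ≤ vl (d : Al) y * vl (d : Al) y := by
        rw [← abs_mul_abs_self (vl (d : Al) y)]
        have h5 : 0 ≤ δ / 2 := by positivity
        exact mul_le_mul h2.le h2.le h5 (abs_nonneg _)
      have h6 : vl (d : Al) y ≠ 0 := by
        intro h0
        rw [h0, abs_zero] at h2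
        linarith
      change c y = vl (φ d) y * vl (d : Al) y *
        ((vl (d : Al) y * vl (d : Al) y) ⊔ (δ / 2 * (δ / 2)))⁻¹
      rw [sup_eq_left.mpr h4, hc d y]
      field_simp
  refine ⟨mkA c hL.isB, fun d => ?_⟩
  apply vl_ext
  intro x
  rw [vl_mul, vl_mkA]
  exact hc d x

/-! ### Not a ring of continuous functions -/

section Cont

variable {X : Type} [TopologicalSpace X]

lemma cx_const (χ : C(X, ℝ) →+* ℝ) (r : ℝ) : χ (algebraMap ℝ C(X, ℝ) r) = r := by
  have h : χ.comp (algebraMap ℝ C(X, ℝ)) = RingHom.id ℝ := Subsingleton.elim _ _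
  exact congrArg (fun g : ℝ →+* ℝ => g r) h

lemma cx_ne_zero (χ : C(X, ℝ) →+* ℝ) {h : C(X, ℝ)} (hne : ∀ x, h x ≠ 0) : χ h ≠ 0 := by
  intro h0
  let g : C(X, ℝ) := ⟨fun x => (h x)⁻¹, h.continuous.inv₀ hne⟩
  have hg : h * g = 1 := by
    ext x
    exact mul_inv_cancel₀ (hne x)
  have := congrArg χ hg
  rw [map_mul, h0, zero_mul, map_one] at this
  exact zero_ne_one this

lemma cx_eval {I : Type} {g : X → (I → ℝ)} (hg : Topology.IsClosedEmbedding g)
    (χ : C(X, ℝ) →+* ℝ) : ∃ y : X, ∀ k : C(X, ℝ), χ k = k y := by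
  classical
  let c : I → C(X, ℝ) := fun i => ⟨fun z => g z i, (continuous_apply i).comp hg.continuous⟩
  let t : I → ℝ := fun i => χ (c i)
  -- basic auxiliary functions
  have key : ∀ U : Set (I → ℝ), IsOpen U → t ∈ U →
      ∃ H : C(X, ℝ), χ H = 0 ∧ (∀ z, 0 ≤ H z) ∧ ∀ z, H z = 0 → g z ∈ U := by
    intro U hU htU
    obtain ⟨S, u, hu, hsub⟩ := isOpen_pi_iff.mp hU t htU
    refine ⟨∑ i ∈ S, (c i - algebraMap ℝ C(X, ℝ) (t i)) * (c i - algebraMap ℝ C(X, ℝ) (t i)),
      ?_, ?_, ?_⟩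
    · rw [map_sum]
      apply Finset.sum_eq_zero
      intro i _
      rw [map_mul, map_sub, cx_const]
      change (t i - t i) * (t i - t i) = 0
      ring
    · intro z
      rw [ContinuousMap.sum_apply]
      exact Finset.sum_nonneg (fun i _ => mul_self_nonneg _)
    · intro z hz
      rw [ContinuousMap.sum_apply] at hz
      have h1 := (Finset.sum_eq_zero_iff_of_nonneg (fun i _ => mul_self_nonneg _)).mp hz
      apply hsub
      intro i hi
      have h2 : (g z i - t i) * (g z i - t i) = 0 := h1 i hi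
      have h3 : g z i = t i := by
        have := mul_self_eq_zero.mp h2
        linarith
      rw [h3]
      exact (hu i hi).2
  have hrange : t ∈ range g := by
    by_contra hc
    obtain ⟨H, hH0, -, hH⟩ := key (range g)ᶜ hg.isClosed_range.isOpen_compl hc
    exact cx_ne_zero χ (fun z hz => hH z hz ⟨z, rfl⟩) hH0
  obtain ⟨y, hy⟩ := hrange
  refine ⟨y, fun k => ?_⟩
  by_contra hc
  have hop : IsOpen {z | k z ≠ χ k} := isOpen_ne_fun k.continuous continuous_const
  obtain ⟨U, hU, hUeq⟩ := hg.isInducing.isOpen_iff.mp hop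
  have htU : t ∈ U := by
    have : y ∈ g ⁻¹' U := by
      rw [hUeq]
      exact fun h => hc h.symm
    rw [← hy]
    exact this
  obtain ⟨H, hH0, hHn, hH⟩ := key U hU htU
  have hne : ∀ z, ((k - algebraMap ℝ C(X, ℝ) (χ k)) * (k - algebraMap ℝ C(X, ℝ) (χ k)) + H) z ≠ 0 := by
    intro z hz
    have h1 : (k z - χ k) * (k z - χ k) + H z = 0 := hz
    have h2 : 0 ≤ (k z - χ k) * (k z - χ k) := mul_self_nonneg _
    have h3 := hHn z
    have h4 : (k z - χ k) * (k z - χ k) = 0 := by linarith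
    have h5 : H z = 0 := by linarith
    have h6 : z ∈ g ⁻¹' U := hH z h5
    rw [hUeq] at h6
    apply h6
    have := mul_self_eq_zero.mp h4
    linarith
  apply cx_ne_zero χ hne
  rw [map_add, map_mul, map_sub, cx_const, hH0]
  ring

/-- The indicator of a basic neighbourhood. -/
noncomputable def nbA (b : ℕ → Tk) (k : ℕ) : Al :=
  mkA (fun y => pushL (pre b k) (fun _ => 1) y * (1 + (-1) * low k y))
    (IsB.mul (pushL_isB _ (IsB.const 1)) (IsB.add (IsB.const 1) (IsB.mul (IsB.const (-1)) (low_isB k))))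

lemma nbA_inr (b : ℕ → Tk) (k : ℕ) : vl (nbA b k) (Sum.inr b) ≠ 0 := by
  obtain ⟨c, hc⟩ := inr_eq_eL k b
  change pushL (pre b k) (fun _ => 1) (Sum.inr b) * (1 + (-1) * low k (Sum.inr b)) ≠ 0
  have h1 : low k (Sum.inr b) = 0 := rfl
  have h2 : pushL (pre b k) (fun _ => (1:ℝ)) (Sum.inr b) = 1 := by
    rw [hc, pushL_eL]
  rw [h1, h2]
  norm_num

lemma mem_Nb_of_nbA {b : ℕ → Tk} {k : ℕ} {y : Pnt} (h : vl (nbA b k) y ≠ 0) : y ∈ Nb b k := by
  have h' : pushL (pre b k) (fun _ => 1) y * (1 + (-1) * low k y) ≠ 0 := h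
  constructor
  · by_contra hc
    rw [pushL_of_not _ _ hc, zero_mul] at h'
    exact h' rfl
  · intro n u hy
    by_contra hc
    apply h'
    have : low k y = 1 := by
      rw [hy]
      change (if n < k then (1:ℝ) else 0) = 1
      rw [if_pos (not_le.mp hc)]
    rw [this]
    ring

/-- The indicator of an isolated point. -/
noncomputable def ptA (n : ℕ) (u : UI) : Al :=
  mkA (col n (fun v => open Classical in if v = u then 1 else 0)) (col_isB _ _)

lemma ptA_self (n : ℕ) (u : UI) : vl (ptA n u) (Sum.inl (n, u)) ≠ 0 := by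
  change (if n = n then (if u = u then (1:ℝ) else 0) else 0) ≠ 0
  simp

lemma eq_of_ptA {n : ℕ} {u : UI} {y : Pnt} (h : vl (ptA n u) y ≠ 0) : y = Sum.inl (n, u) := by
  rcases y with ⟨m, v⟩ | b
  · have h' : (if m = n then (open Classical in if v = u then (1:ℝ) else 0) else 0) ≠ 0 := h
    by_cases h1 : m = n
    · by_cases h2 : v = u
      · rw [h1, h2]
      · rw [if_pos h1, if_neg h2] at h'
        exact absurd rfl h'
    · rw [if_neg h1] at h'
      exact absurd rfl h'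
  · exact absurd rfl h

lemma not_iso {I : Type} {g : X → (I → ℝ)} (hg : Topology.IsClosedEmbedding g)
    (Φ : Al ≃+*o C(X, ℝ)) : False := by
  have hτ : ∀ x : Pnt, ∃ y : X, ∀ a : Al, vl a x = Φ a y := by
    intro x
    obtain ⟨y, hy⟩ := cx_eval hg ((ev x).comp (Φ.symm : C(X, ℝ) ≃+* Al).toRingHom)
    refine ⟨y, fun a => ?_⟩
    rw [← hy (Φ a)]
    change vl a x = vl (Φ.symm (Φ a)) x
    rw [OrderRingIso.symm_apply_apply]
  have hσ : ∀ y : X, ∃ x : Pnt, ∀ a : Al, Φ a y = vl a x := by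
    intro y
    obtain ⟨x, hx⟩ := classify ((ContinuousMap.evalAlgHom ℝ ℝ y).toRingHom.comp
      (Φ : Al ≃+* C(X, ℝ)).toRingHom)
    exact ⟨x, fun a => hx a⟩
  choose τ hτ using hτ
  choose σ hσ using hσ
  have hστ : ∀ p, σ (τ (Sum.inl p)) = Sum.inl p := by
    rintro ⟨n, u⟩
    apply eq_of_ptA
    rw [← hσ, ← hτ]
    exact ptA_self n u
  have hopen : ∀ a : Al, IsOpen {z | Φ a z ≠ 0} := fun a =>
    isOpen_ne_fun (Φ a).continuous continuous_const
  have hF : Continuous (fun y => hgt (σ y)) := by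
    rw [continuous_iff_continuousAt]
    intro y
    rw [Metric.continuousAt_iff']
    intro ε hε
    rcases hy : σ y with ⟨n, u⟩ | b
    · have h1 : y ∈ {z | Φ (ptA n u) z ≠ 0} := by
        change Φ (ptA n u) y ≠ 0
        rw [hσ, hy]
        exact ptA_self n u
      filter_upwards [(hopen (ptA n u)).mem_nhds h1] with z hz
      have h2 : Φ (ptA n u) z ≠ 0 := hz
      rw [hσ] at h2
      rw [eq_of_ptA h2, dist_self]
      exact hε
    · obtain ⟨k, hk⟩ := hgt_cont b ε hε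
      have h1 : y ∈ {z | Φ (nbA b k) z ≠ 0} := by
        change Φ (nbA b k) y ≠ 0
        rw [hσ, hy]
        exact nbA_inr b k
      filter_upwards [(hopen (nbA b k)).mem_nhds h1] with z hz
      have h2 : Φ (nbA b k) z ≠ 0 := hz
      rw [hσ] at h2
      rw [Real.dist_eq]
      exact hk _ (mem_Nb_of_nbA h2)
  let F : C(X, ℝ) := ⟨fun y => hgt (σ y), hF⟩
  apply not_isB_of_eq_hgt (vl_isB (Φ.symm F))
  intro p
  rw [hτ, OrderRingIso.apply_symm_apply]
  change hgt (σ (τ (Sum.inl p))) = hgt (Sum.inl p)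
  rw [hστ]

end Cont

end Pool.Agent.Lib.MP_9f4369_gt
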