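import Pool.Agent.Lib.MP_9f4369_gt.Push

/-!
# Every ring homomorphism from the algebra to the reals is an evaluation
-/

set_option autoImplicit false

namespace Pool.Agent.Lib.MP_9f4369_gt

open Set Filter Topology

lemma pushL_append (s t : List Tk) (h : Pnt → ℝ) : pushL (s ++ t) h = pushL s (pushL t h) := by
  induction s with
  | nil => rfl
  | cons A s ih =>
    change push A (pushL (s ++ t) h) = push A (pushL s (pushL t h))
    rw [ih]

lemma pushL_add (s : List Tk) (f g : Pnt → ℝ) :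
    pushL s (f + g) = pushL s f + pushL s g := by
  funext y
  by_cases hy : ∃ x, y = eL s x
  · obtain ⟨x, rfl⟩ := hy
    rw [Pi.add_apply, pushL_eL, pushL_eL, pushL_eL, Pi.add_apply]
  · rw [Pi.add_apply, pushL_of_not s _ hy, pushL_of_not s _ hy, pushL_of_not s _ hy, add_zero]

lemma pushL_mul (s : List Tk) (f g : Pnt → ℝ) :
    pushL s (f * g) = pushL s f * pushL s g := by
  funext y
  by_cases hy : ∃ x, y = eL s x
  · obtain ⟨x, rfl⟩ := hy
    rw [Pi.mul_apply, pushL_eL, pushL_eL, pushL_eL, Pi.mul_apply]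
  · rw [Pi.mul_apply, pushL_of_not s _ hy, pushL_of_not s _ hy, pushL_of_not s _ hy, mul_zero]

/-- Push forward in the algebra. -/
noncomputable def pushA (s : List Tk) (h : BA) : BA := ⟨pushL s h.1, pushL_isB s h.2⟩

lemma pushA_add (s : List Tk) (f g : BA) : pushA s (f + g) = pushA s f + pushA s g :=
  Subtype.ext (pushL_add s f.1 g.1)

lemma pushA_mul (s : List Tk) (f g : BA) : pushA s (f * g) = pushA s f * pushA s g :=
  Subtype.ext (pushL_mul s f.1 g.1)

lemma hom_pushA_one (ψ : BA →+* ℝ) (s : List Tk) (h : ψ (pushA s 1) ≠ 0) :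
    ψ (pushA s 1) = 1 := by
  have h1 : pushA s 1 * pushA s 1 = pushA s 1 := by rw [← pushA_mul, mul_one]
  have h2 := congrArg ψ h1
  rw [map_mul] at h2
  exact mul_left_cancel₀ h (by rw [h2, mul_one])

/-- The localized homomorphism. -/
noncomputable def homS (ψ : BA →+* ℝ) (s : List Tk) (h : ψ (pushA s 1) = 1) : BA →+* ℝ where
  toFun f := ψ (pushA s f)
  map_one' := h
  map_mul' f g := by rw [pushA_mul, map_mul]
  map_zero' := by
    have h1 : pushA s (0 + 0) = pushA s 0 + pushA s 0 := pushA_add s 0 0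
    rw [add_zero] at h1
    have h2 : pushA s 0 = 0 := by
      have := sub_eq_zero.mpr h1
      rw [sub_add_cancel_left, neg_eq_zero] at this
      exact this
    rw [h2, map_zero]
  map_add' f g := by rw [pushA_add, map_add]

/-- Pull back in the algebra. -/
noncomputable def pullA (s : List Tk) (h : BA) : BA := ⟨fun x => h.1 (eL s x), h.2.pullL s⟩

lemma mul_pushA_one (s : List Tk) (h : BA) : h * pushA s 1 = pushA s (pullA s h) := by
  apply Subtype.ext
  funext y
  change h.1 y * pushL s (fun _ => (1:ℝ)) y = pushL s (fun x => h.1 (eL s x)) y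
  by_cases hy : ∃ x, y = eL s x
  · obtain ⟨x, rfl⟩ := hy
    rw [pushL_eL, pushL_eL, mul_one]
  · rw [pushL_of_not s _ hy, pushL_of_not s _ hy, mul_zero]

lemma hom_low (ψ : BA →+* ℝ) (hcon : ∀ n, ψ ⟨col n (fun _ => 1), col_isB n _⟩ = 0) (k : ℕ) :
    ψ ⟨low k, low_isB k⟩ = 0 := by
  induction k with
  | zero =>
    have : (⟨low 0, low_isB 0⟩ : BA) = 0 := by
      apply Subtype.ext
      funext y
      rcases y with ⟨n, u⟩ | b
      · change (if n < 0 then (1:ℝ) else 0) = 0
        simp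
      · rfl
    rw [this, map_zero]
  | succ k ih =>
    have : (⟨low (k + 1), low_isB (k + 1)⟩ : BA) =
        ⟨low k, low_isB k⟩ + ⟨col k (fun _ => 1), col_isB k _⟩ := by
      apply Subtype.ext
      funext y
      rcases y with ⟨n, u⟩ | b
      · change (if n < k + 1 then (1:ℝ) else 0) = (if n < k then 1 else 0) + (if n = k then 1 else 0)
        rcases lt_trichotomy n k with h | h | h
        · rw [if_pos (by omega), if_pos h, if_neg (by omega), add_zero]
        · rw [if_pos (by omega), if_neg (by omega), if_pos h, zero_add]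
        · rw [if_neg (by omega), if_neg (by omega), if_neg (by omega), add_zero]
      · change (0:ℝ) = 0 + 0
        rw [add_zero]
    rw [this, map_add, ih, hcon k, add_zero]

/-- Classification of the homomorphisms to the reals. -/
theorem hom_classify (ψ : BA →+* ℝ) : ∃ d : Pnt, ∀ h : BA, ψ h = h.1 d := by
  by_contra hcon
  push Not at hcon
  have hcol : ∀ n, ψ ⟨col n (fun _ => 1), col_isB n _⟩ = 0 := by
    intro n
    by_contra hne
    obtain ⟨d, hd⟩ := hom_of_col ψ n hne
    obtain ⟨h, hh⟩ := hcon d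
    exact hh (hd h)
  have h0 : ψ (pushA [] 1) ≠ 0 := by
    have : pushA [] 1 = 1 := rfl
    rw [this, map_one]
    exact one_ne_zero
  obtain ⟨b, hb⟩ := exists_branch (Bad := fun s => ψ (pushA s 1) ≠ 0) h0
    (by
      intro s hs
      have hs1 := hom_pushA_one ψ s hs
      rcases hom_step (homS ψ s hs1) with ⟨d, hd⟩ | ⟨A, hA⟩
      · exfalso
        obtain ⟨h, hh⟩ := hcon (eL s d)
        apply hh
        have e1 : ψ (h * pushA s 1) = ψ (pushA s (pullA s h)) := by rw [mul_pushA_one]
        rw [map_mul, hs1, mul_one] at e1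
        rw [e1]
        exact hd (pullA s h)
      · refine ⟨A, ?_⟩
        have e1 : pushA (s ++ [A]) 1 = pushA s ⟨push A (fun _ => 1), push_isB A (IsB.const 1)⟩ := by
          apply Subtype.ext
          change pushL (s ++ [A]) (fun _ => (1:ℝ)) = pushL s (push A (fun _ => 1))
          rw [pushL_append]
          rfl
        rw [e1]
        exact hA)
  obtain ⟨h, hh⟩ := hcon (Sum.inr b)
  set r : ℝ := ψ h with hr
  have hδ : 0 < |h.1 (Sum.inr b) - r| := abs_pos.mpr (sub_ne_zero.mpr (Ne.symm hh))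
  obtain ⟨k, hk⟩ := h.2.1 b _ hδ
  have hone := hom_pushA_one ψ _ (hb k)
  set P : BA := pushA (pre b k) 1 with hP
  set L : BA := ⟨low k, low_isB k⟩ with hL
  let H : BA := (h - algebraMap ℝ BA r) * (h - algebraMap ℝ BA r) + (1 - P) + L
  have hH : ∀ y, H.1 y ≠ 0 := by
    intro y
    have hy : H.1 y = (h.1 y - r) * (h.1 y - r) + (1 - pushL (pre b k) (fun _ => 1) y) + low k y :=
      rfl
    rw [hy]
    have p1 : 0 ≤ (h.1 y - r) * (h.1 y - r) := mul_self_nonneg _
    have p3 : 0 ≤ low k y := by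
      rcases y with ⟨n, u⟩ | c
      · change 0 ≤ (if n < k then (1:ℝ) else 0)
        split_ifs <;> norm_num
      · exact le_rfl
    by_cases hyr : ∃ x, y = eL (pre b k) x
    · have p2 : pushL (pre b k) (fun _ => (1:ℝ)) y = 1 := by
        obtain ⟨x, rfl⟩ := hyr
        rw [pushL_eL]
      rw [p2]
      by_cases hyN : y ∈ Nb b k
      · have h1 := hk y hyN
        have h2 : h.1 y - r ≠ 0 := by
          intro h0
          have : h.1 y = r := by linarith
          rw [this, abs_sub_comm] at h1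
          exact lt_irrefl _ h1
        have h3 : 0 < (h.1 y - r) * (h.1 y - r) := mul_self_pos.mpr h2
        linarith
      · -- `y` is in a low column
        have : ∃ n u, y = Sum.inl (n, u) ∧ n < k := by
          by_contra hc
          push Not at hc
          exact hyN ⟨hyr, fun n u e => hc n u e⟩
        obtain ⟨n, u, rfl, hnk⟩ := this
        have p4 : low k (Sum.inl (n, u)) = 1 := by
          change (if n < k then (1:ℝ) else 0) = 1
          rw [if_pos hnk]
        rw [p4]
        linarith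
    · rw [pushL_of_not _ _ hyr]
      linarith
  apply hom_ne_zero ψ hH
  change ψ ((h - algebraMap ℝ BA r) * (h - algebraMap ℝ BA r) + (1 - P) + L) = 0
  rw [map_add, map_add, map_mul, map_sub, map_sub, hom_const, map_one, hone, hom_low ψ hcol, ← hr]
  ring

/-! ### The height function -/

/-- Binary digit of a side. -/
def bit (j : Bool) : ℝ := if j then 1 else 0

lemma bit_nonneg (j : Bool) : 0 ≤ bit j := by cases j <;> simp [bit]
lemma bit_le_one (j : Bool) : bit j ≤ 1 := by cases j <;> simp [bit]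

/-- Height of a branch. -/
noncomputable def hb (b : ℕ → Tk) : ℝ := ∑' k, bit (side (b k)) * (1 / 2 : ℝ) ^ (k + 1)

lemma summable_geo : Summable (fun k : ℕ => (1 / 2 : ℝ) ^ (k + 1)) := by
  have := summable_geometric_of_lt_one (r := (1/2:ℝ)) (by norm_num) (by norm_num)
  exact (summable_nat_add_iff 1).mpr this

lemma summable_hb (b : ℕ → Tk) : Summable (fun k => bit (side (b k)) * (1 / 2 : ℝ) ^ (k + 1)) := by
  refine Summable.of_nonneg_of_le (fun k => ?_) (fun k => ?_) summable_geo
  · exact mul_nonneg (bit_nonneg _) (by positivity)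
  · have := bit_le_one (side (b k))
    have h2 : (0:ℝ) ≤ (1 / 2 : ℝ) ^ (k + 1) := by positivity
    nlinarith

lemma tsum_geo : ∑' k : ℕ, (1 / 2 : ℝ) ^ (k + 1) = 1 := by
  have h : ∀ k : ℕ, (1 / 2 : ℝ) ^ (k + 1) = (1 / 2) * (1 / 2) ^ k := fun k => by ring
  simp_rw [h]
  rw [tsum_mul_left, tsum_geometric_of_lt_one (by norm_num) (by norm_num)]
  norm_num

lemma hb_nonneg (b : ℕ → Tk) : 0 ≤ hb b :=
  tsum_nonneg (fun k => mul_nonneg (bit_nonneg _) (by positivity))

lemma hb_le_one (b : ℕ → Tk) : hb b ≤ 1 := by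
  rw [← tsum_geo]
  refine (summable_hb b).tsum_le_tsum (fun k => ?_) summable_geo
  have := bit_le_one (side (b k))
  have h2 : (0:ℝ) ≤ (1 / 2 : ℝ) ^ (k + 1) := by positivity
  nlinarith

lemma hb_shiftc (A : Tk) (b : ℕ → Tk) : hb (shiftc A b) = (bit (side A) + hb b) / 2 := by
  unfold hb
  rw [(summable_hb (shiftc A b)).tsum_eq_zero_add]
  have h : ∀ k : ℕ, bit (side (shiftc A b (k + 1))) * (1 / 2 : ℝ) ^ (k + 1 + 1) =
      (1 / 2) * (bit (side (b k)) * (1 / 2 : ℝ) ^ (k + 1)) := fun k => by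
    change bit (side (b k)) * (1 / 2 : ℝ) ^ (k + 1 + 1) = _
    ring
  simp_rw [h]
  rw [tsum_mul_left]
  change bit (side A) * (1 / 2 : ℝ) ^ (0 + 1) + _ = _
  ring

/-- The height function. -/
noncomputable def hgt : Pnt → ℝ
  | Sum.inl p => (p.2 : ℝ)
  | Sum.inr b => hb b

lemma hgt_mem (x : Pnt) : 0 ≤ hgt x ∧ hgt x ≤ 1 := by
  rcases x with ⟨n, u⟩ | b
  · exact u.2
  · exact ⟨hb_nonneg b, hb_le_one b⟩

lemma hgt_e (A : Tk) (x : Pnt) : hgt (e A x) = (bit (side A) + hgt x) / 2 := by
  rcases x with ⟨n, u⟩ | b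
  · rfl
  · exact hb_shiftc A b

lemma hgt_eL (s : List Tk) (x y : Pnt) :
    |hgt (eL s x) - hgt (eL s y)| = (1 / 2 : ℝ) ^ s.length * |hgt x - hgt y| := by
  induction s with
  | nil => simp [eL_nil]
  | cons A s ih =>
    rw [eL_cons, eL_cons, hgt_e, hgt_e, List.length_cons, pow_succ]
    have : (bit (side A) + hgt (eL s x)) / 2 - (bit (side A) + hgt (eL s y)) / 2 =
        (1 / 2) * (hgt (eL s x) - hgt (eL s y)) := by ring
    rw [this, abs_mul, ih, abs_of_pos (by norm_num : (0:ℝ) < 1 / 2)]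
    ring

lemma pre_length (b : ℕ → Tk) (k : ℕ) : (pre b k).length = k := by
  simp [pre]

lemma hgt_cont : Cont hgt := by
  intro b ε hε
  obtain ⟨k, hk⟩ := exists_pow_lt_of_lt_one hε (by norm_num : (1 / 2 : ℝ) < 1)
  refine ⟨k, fun y hy => ?_⟩
  obtain ⟨⟨x, hx⟩, -⟩ := hy
  obtain ⟨c, hc⟩ := inr_eq_eL k b
  rw [hx, hc, hgt_eL, pre_length]
  have h1 := hgt_mem x
  have h2 := hgt_mem (Sum.inr c)
  have h3 : |hgt x - hgt (Sum.inr c)| ≤ 1 := by
    rw [abs_le]
    constructor <;> linarith [h1.1, h1.2, h2.1, h2.2]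
  have h4 : (0:ℝ) ≤ (1 / 2 : ℝ) ^ k := by positivity
  calc (1 / 2 : ℝ) ^ k * |hgt x - hgt (Sum.inr c)| ≤ (1 / 2 : ℝ) ^ k * 1 := by gcongr
    _ < ε := by rw [mul_one]; exact hk

/-- No function of the class agrees with the height on all the isolated points. -/
lemma not_isB_of_eq_hgt {h : Pnt → ℝ} (hh : IsB h)
    (heq : ∀ p, h (Sum.inl p) = hgt (Sum.inl p)) : False := by
  have h1 := hh.2 [] 1 one_pos
  refine not_small_Ici (k := 0) ?_ h1
  intro n _
  change 1 ≤ |h (Sum.inl (n, endpt false)) - h (Sum.inl (n, endpt true))|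
  rw [heq, heq]
  change 1 ≤ |((endpt false : UI) : ℝ) - ((endpt true : UI) : ℝ)|
  rw [endpt_false_coe, endpt_true_coe]
  norm_num

end Pool.Agent.Lib.MP_9f4369_gt
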