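import Pool.Agent.Lib.MP_9f4369_gt.Space

/-!
# Special functions of the class and ring homomorphisms to the reals
-/

set_option autoImplicit false

namespace Pool.Agent.Lib.MP_9f4369_gt

open Set Filter Topology

/-- Push a function forward along `e A`, extended by zero. -/
noncomputable def push (A : Tk) (h : Pnt → ℝ) (y : Pnt) : ℝ :=
  open Classical in if H : ∃ x, y = e A x then h (Classical.choose H) else 0

lemma push_e (A : Tk) (h : Pnt → ℝ) (x : Pnt) : push A h (e A x) = h x := by
  have H : ∃ x', e A x = e A x' := ⟨x, rfl⟩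
  unfold push
  rw [dif_pos H]
  have h1 := Classical.choose_spec H
  rw [← e_injective A h1]

lemma push_of_not (A : Tk) (h : Pnt → ℝ) {y : Pnt} (hy : ¬ ∃ x, y = e A x) : push A h y = 0 := by
  unfold push
  rw [dif_neg hy]

lemma inl_eq_e {A : Tk} {n : ℕ} {u : UI} (h : ∃ x, (Sum.inl (n, u) : Pnt) = e A x) :
    n ∈ range (seq A) := by
  obtain ⟨x, hx⟩ := h
  rcases x with ⟨m, v⟩ | c
  · rw [e_inl] at hx
    exact ⟨m, (congrArg Prod.fst (Sum.inl_injective hx)).symm⟩
  · rw [e_inr] at hx
    exact absurd hx (by simp)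

lemma inr_eq_e {A : Tk} {b : ℕ → Tk} (h : ∃ x, (Sum.inr b : Pnt) = e A x) : b 0 = A := by
  obtain ⟨x, hx⟩ := h
  rcases x with ⟨m, v⟩ | c
  · rw [e_inl] at hx
    exact absurd hx (by simp)
  · rw [e_inr] at hx
    rw [Sum.inr_injective hx]
    rfl

lemma mem_Nb_shiftc {A : Tk} {b : ℕ → Tk} {k : ℕ} {y : Pnt}
    (hy : y ∈ Nb (shiftc A b) (max (k + 1) (seq A k))) : ∃ x ∈ Nb b k, y = e A x := by
  obtain ⟨⟨z, hz⟩, -⟩ := Nb_anti _ (le_max_left _ _) hy
  obtain ⟨-, hn⟩ := hy
  rw [pre_shiftc, eL_cons] at hz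
  refine ⟨eL (pre b k) z, ⟨⟨z, rfl⟩, ?_⟩, hz⟩
  intro n u h
  rw [h, e_inl] at hz
  have h1 := hn _ _ hz
  have h2 : seq A k ≤ seq A n := (le_max_right _ _).trans h1
  exact (seq_strictMono A).le_iff_le.mp h2

lemma push_isB (A : Tk) {h : Pnt → ℝ} (hh : IsB h) : IsB (push A h) := by
  constructor
  · intro b ε hε
    by_cases hb : b 0 = A
    · obtain ⟨k, hk⟩ := hh.1 (fun n => b (n + 1)) ε hε
      refine ⟨max (k + 1) (seq A k), fun y hy => ?_⟩
      have hb' : b = shiftc A (fun n => b (n + 1)) := by rw [← hb, shiftc_eta]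
      rw [hb'] at hy
      obtain ⟨x, hx, rfl⟩ := mem_Nb_shiftc hy
      have h1 : (Sum.inr b : Pnt) = e A (Sum.inr (fun n => b (n + 1))) := by
        rw [e_inr, ← hb']
      rw [h1, push_e, push_e]
      exact hk x hx
    · -- near `b` the function vanishes
      have hfin := range_inter_finite hb
      obtain ⟨K, hK⟩ := hfin.bddAbove
      refine ⟨max 1 (K + 1), fun y hy => ?_⟩
      have h1 : push A h (Sum.inr b) = 0 := push_of_not A h (fun H => hb (inr_eq_e H))
      have h2 : push A h y = 0 := by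
        apply push_of_not
        intro H
        obtain ⟨⟨z, hz⟩, -⟩ := Nb_anti b (le_max_left 1 (K + 1)) hy
        have hn := hy.2
        rw [pre_succ', eL_cons] at hz
        rcases y with ⟨n, u⟩ | c
        · have ha := inl_eq_e H
          have hb2 := inl_eq_e ⟨_, hz⟩
          have h3 := hK ⟨hb2, ha⟩
          have h4 := hn n u rfl
          have h5 : K + 1 ≤ n := (le_max_right _ _).trans h4
          omega
        · have ha := inr_eq_e H
          have hb2 := inr_eq_e ⟨_, hz⟩
          exact hb (hb2.symm.trans ha)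
      rw [h1, h2, sub_zero, abs_zero]
      exact hε
  · intro s
    rcases s with _ | ⟨A', t⟩
    · intro ε hε
      refine (small_range_seq A).mono ?_
      intro n hn
      have hn' : ε ≤ |push A h (Sum.inl (n, endpt false)) - push A h (Sum.inl (n, endpt true))| := hn
      by_contra hc
      rw [push_of_not A h (fun H => hc (inl_eq_e H)), push_of_not A h (fun H => hc (inl_eq_e H)),
        sub_zero, abs_zero] at hn'
      linarith
    · by_cases hA : A' = A
      · subst hA
        have := hh.2 t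
        intro ε hε
        refine (this ε hε).mono ?_
        intro n hn
        have hn' : ε ≤ |push A' h (e A' (eL t (Sum.inl (n, endpt false)))) -
          push A' h (e A' (eL t (Sum.inl (n, endpt true))))| := hn
        rw [push_e, push_e] at hn'
        exact hn'
      · intro ε hε
        have hfin := range_inter_finite hA
        have hinj : Function.Injective (fun n => seq A' (gL t n)) :=
          (seq_strictMono A').injective.comp (gL_strictMono t).injective
        refine Small.of_finite ((hfin.preimage hinj.injOn).subset ?_)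
        intro n hn
        have hn' : ε ≤ |push A h (e A' (eL t (Sum.inl (n, endpt false)))) -
          push A h (e A' (eL t (Sum.inl (n, endpt true))))| := hn
        rw [eL_inl, eL_inl, e_inl, e_inl] at hn'
        refine ⟨⟨_, rfl⟩, ?_⟩
        by_contra hc
        rw [push_of_not A h (fun H => hc (inl_eq_e H)), push_of_not A h (fun H => hc (inl_eq_e H)),
          sub_zero, abs_zero] at hn'
        linarith

/-- Iterated push forward. -/
noncomputable def pushL : List Tk → (Pnt → ℝ) → Pnt → ℝ
  | [], h => h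
  | A :: s, h => push A (pushL s h)

lemma pushL_isB (s : List Tk) {h : Pnt → ℝ} (hh : IsB h) : IsB (pushL s h) := by
  induction s with
  | nil => exact hh
  | cons A s ih => exact push_isB A ih

lemma pushL_eL (s : List Tk) (h : Pnt → ℝ) (x : Pnt) : pushL s h (eL s x) = h x := by
  induction s with
  | nil => rfl
  | cons A s ih =>
    change push A (pushL s h) (e A (eL s x)) = h x
    rw [push_e, ih]

lemma pushL_of_not (s : List Tk) (h : Pnt → ℝ) : ∀ {y : Pnt}, (¬ ∃ x, y = eL s x) →
    pushL s h y = 0 := by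
  induction s with
  | nil => intro y hy; exact absurd ⟨y, rfl⟩ hy
  | cons A s ih =>
    intro y hy
    change push A (pushL s h) y = 0
    by_cases H : ∃ x, y = e A x
    · obtain ⟨x, rfl⟩ := H
      rw [push_e]
      apply ih
      rintro ⟨z, rfl⟩
      exact hy ⟨z, rfl⟩
    · exact push_of_not A _ H

/-- Functions supported on the column over `n₀`. -/
noncomputable def col (n₀ : ℕ) (w : UI → ℝ) : Pnt → ℝ
  | Sum.inl p => if p.1 = n₀ then w p.2 else 0
  | Sum.inr _ => 0

lemma col_isB (n₀ : ℕ) (w : UI → ℝ) : IsB (col n₀ w) := by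
  apply LocB.isB
  intro b
  refine ⟨fun _ => 0, IsB.const 0, n₀ + 1, fun y hy => ?_⟩
  rcases y with ⟨n, u⟩ | c
  · have h := hy.2 n u rfl
    have : n ≠ n₀ := by omega
    simp [col, this]
  · rfl

/-- The indicator of the first `k` columns. -/
noncomputable def low (k : ℕ) : Pnt → ℝ
  | Sum.inl p => if p.1 < k then 1 else 0
  | Sum.inr _ => 0

lemma low_isB (k : ℕ) : IsB (low k) := by
  apply LocB.isB
  intro b
  refine ⟨fun _ => 0, IsB.const 0, k, fun y hy => ?_⟩
  rcases y with ⟨n, u⟩ | c
  · have h := hy.2 n u rfl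
    have : ¬ n < k := by omega
    simp [low, this]
  · rfl

/-- The basic real function on points. -/
noncomputable def bas : Pnt → ℝ
  | Sum.inl p => pt p.1
  | Sum.inr b => lim (b 0)

lemma bas_isB : IsB bas := by
  constructor
  · intro b ε hε
    obtain ⟨M, hM⟩ := exists_nat_one_div_lt hε
    refine ⟨max 1 (seq (b 0) M + 1), fun y hy => ?_⟩
    obtain ⟨⟨z, hz⟩, -⟩ := Nb_anti b (le_max_left 1 (seq (b 0) M + 1)) hy
    have hn := hy.2
    rw [pre_succ', eL_cons] at hz
    rcases y with ⟨n, u⟩ | c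
    · obtain ⟨m, hm⟩ := inl_eq_e ⟨_, hz⟩
      have h4 : seq (b 0) M + 1 ≤ n := (le_max_right _ _).trans (hn n u rfl)
      rw [← hm] at h4
      have h5 : M < m := by
        have : seq (b 0) M < seq (b 0) m := by omega
        exact (seq_strictMono (b 0)).lt_iff_lt.mp this
      change |pt n - lim (b 0)| < ε
      rw [← hm]
      refine (seq_close (b 0) m).trans ?_
      refine lt_of_le_of_lt ?_ hM
      apply one_div_le_one_div_of_le (by positivity)
      have : (M:ℝ) ≤ m := by exact_mod_cast h5.le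
      linarith
    · have hb2 := inr_eq_e ⟨_, hz⟩
      change |lim (c 0) - lim (b 0)| < ε
      rw [hb2, sub_self, abs_zero]
      exact hε
  · intro s ε hε
    refine Small.of_finite ?_
    have : {n | ε ≤ |dif (fun x => bas (eL s x)) n|} = ∅ := by
      ext n
      simp only [Set.mem_ofPred_eq, Set.mem_empty_iff_false, iff_false]
      change ¬ ε ≤ |bas (eL s (Sum.inl (n, endpt false))) - bas (eL s (Sum.inl (n, endpt true)))|
      rw [eL_inl, eL_inl]
      change ¬ ε ≤ |pt (gL s n) - pt (gL s n)|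
      rw [sub_self, abs_zero]
      exact not_le.mpr hε
    rw [this]
    exact Set.finite_empty

/-- The subalgebra of the class. -/
noncomputable def BA : Subalgebra ℝ (Pnt → ℝ) where
  carrier := {h | IsB h}
  mul_mem' := fun ha hb => IsB.mul ha hb
  add_mem' := fun ha hb => IsB.add ha hb
  algebraMap_mem' := fun r => IsB.const r

lemma mem_BA {h : Pnt → ℝ} : h ∈ BA ↔ IsB h := Iff.rfl

/-- A ring homomorphism to the reals is linear. -/
lemma hom_const (ψ : BA →+* ℝ) (r : ℝ) : ψ (algebraMap ℝ BA r) = r := by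
  have h : ψ.comp (algebraMap ℝ BA) = RingHom.id ℝ := Subsingleton.elim _ _
  exact congrArg (fun g : ℝ →+* ℝ => g r) h

lemma hom_ne_zero (ψ : BA →+* ℝ) {h : BA} (hne : ∀ x, h.1 x ≠ 0) : ψ h ≠ 0 := by
  intro h0
  let g : BA := ⟨fun x => (h.1 x)⁻¹, IsB.inv h.2 hne⟩
  have hg : h * g = 1 := by
    apply Subtype.ext
    funext x
    exact mul_inv_cancel₀ (hne x)
  have := congrArg ψ hg
  rw [map_mul, h0, zero_mul, map_one] at this
  exact zero_ne_one this

/-- If `ψ` does not vanish on the indicator of a point, it is evaluation there. -/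
lemma hom_eq_of_point (ψ : BA →+* ℝ) (d : Pnt) (g : BA) (hg : ∀ x, x ≠ d → g.1 x = 0)
    (hψ : ψ g ≠ 0) (h : BA) : ψ h = h.1 d := by
  have h1 : h * g = algebraMap ℝ BA (h.1 d) * g := by
    apply Subtype.ext
    funext x
    change h.1 x * g.1 x = h.1 d * g.1 x
    by_cases hx : x = d
    · rw [hx]
    · rw [hg x hx, mul_zero, mul_zero]
  have h2 := congrArg ψ h1
  rw [map_mul, map_mul, hom_const] at h2
  exact mul_right_cancel₀ hψ h2

/-- If `ψ` does not vanish on the indicator of a column, it is an evaluation. -/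
lemma hom_of_col (ψ : BA →+* ℝ) (n₀ : ℕ) (hψ : ψ ⟨col n₀ (fun _ => 1), col_isB n₀ _⟩ ≠ 0) :
    ∃ d, ∀ h : BA, ψ h = h.1 d := by
  classical
  set c : BA := ⟨col n₀ (fun _ => 1), col_isB n₀ _⟩ with hc
  have hcc : c * c = c := by
    apply Subtype.ext
    funext x
    change col n₀ (fun _ => 1) x * col n₀ (fun _ => 1) x = col n₀ (fun _ => 1) x
    rcases x with ⟨n, u⟩ | b
    · simp only [col]
      split_ifs <;> norm_num
    · simp [col]
  have h1 : ψ c = 1 := by
    have := congrArg ψ hcc
    rw [map_mul] at this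
    exact mul_left_cancel₀ hψ (by rw [this, mul_one])
  set w : BA := ⟨col n₀ (fun u => (u : ℝ)), col_isB n₀ _⟩ with hw
  set t : ℝ := ψ w with ht
  -- the point, if any
  let ind : UI → ℝ := fun u => if (u : ℝ) = t then 1 else 0
  let g : BA := ⟨col n₀ ind, col_isB n₀ _⟩
  let H : BA := (w - algebraMap ℝ BA t) * (w - algebraMap ℝ BA t) + (1 - c) + g
  have hH : ∀ x, H.1 x ≠ 0 := by
    intro x
    have hx : H.1 x = (w.1 x - t) * (w.1 x - t) + (1 - c.1 x) + g.1 x := rfl
    rw [hx]
    rcases x with ⟨n, u⟩ | b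
    · by_cases hn : n = n₀
      · subst hn
        have e1 : w.1 (Sum.inl (n, u)) = (u : ℝ) := by simp [hw, col]
        have e2 : c.1 (Sum.inl (n, u)) = 1 := by simp [hc, col]
        have e3 : g.1 (Sum.inl (n, u)) = ind u := by simp [g, col]
        rw [e1, e2, e3]
        by_cases hu : (u : ℝ) = t
        · simp [ind, hu]
        · have : 0 < ((u : ℝ) - t) * ((u : ℝ) - t) := mul_self_pos.mpr (sub_ne_zero.mpr hu)
          simp only [ind, hu, if_false]
          linarith
      · have e1 : w.1 (Sum.inl (n, u)) = 0 := by simp [hw, col, hn]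
        have e2 : c.1 (Sum.inl (n, u)) = 0 := by simp [hc, col, hn]
        have e3 : g.1 (Sum.inl (n, u)) = 0 := by simp [g, col, hn]
        rw [e1, e2, e3]
        have : 0 ≤ ((0:ℝ) - t) * (0 - t) := mul_self_nonneg _
        linarith
    · have e1 : w.1 (Sum.inr b) = 0 := rfl
      have e2 : c.1 (Sum.inr b) = 0 := rfl
      have e3 : g.1 (Sum.inr b) = 0 := rfl
      rw [e1, e2, e3]
      have : 0 ≤ ((0:ℝ) - t) * (0 - t) := mul_self_nonneg _
      linarith
  have h2 := hom_ne_zero ψ hH
  have h3 : ψ H = ψ g := by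
    change ψ ((w - algebraMap ℝ BA t) * (w - algebraMap ℝ BA t) + (1 - c) + g) = ψ g
    rw [map_add, map_add, map_mul, map_sub, map_sub, hom_const, map_one, h1, ← ht]
    ring
  rw [h3] at h2
  -- `t` must be in the unit interval
  by_cases htu : ∃ u : UI, (u : ℝ) = t
  · obtain ⟨u, hu⟩ := htu
    refine ⟨Sum.inl (n₀, u), hom_eq_of_point ψ _ g ?_ h2⟩
    intro x hx
    rcases x with ⟨n, v⟩ | b
    · change (if n = n₀ then ind v else 0) = 0
      by_cases hn : n = n₀
      · rw [if_pos hn]
        have : ¬ (v : ℝ) = t := by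
          intro hv
          apply hx
          have : v = u := Subtype.ext (hv.trans hu.symm)
          rw [hn, this]
        simp [ind, this]
      · rw [if_neg hn]
    · rfl
  · exfalso
    apply h2
    have : g = 0 := by
      apply Subtype.ext
      funext x
      rcases x with ⟨n, v⟩ | b
      · change (if n = n₀ then ind v else 0) = 0
        have : ¬ (v : ℝ) = t := fun hv => htu ⟨v, hv⟩
        simp [ind, this]
      · rfl
    rw [this, map_zero]

/-- First classification of homomorphisms. -/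
lemma hom_step (ψ : BA →+* ℝ) : (∃ d, ∀ h : BA, ψ h = h.1 d) ∨
    ∃ A : Tk, ψ ⟨push A (fun _ => 1), push_isB A (IsB.const 1)⟩ ≠ 0 := by
  classical
  by_contra hcon
  push Not at hcon
  obtain ⟨hcon1, hcon2⟩ := hcon
  set B : BA := ⟨bas, bas_isB⟩ with hB
  set t : ℝ := ψ B with ht
  -- correcting terms
  obtain ⟨g1, hg1, hg1n, hg1p⟩ : ∃ g : BA, ψ g = 0 ∧ (∀ x, 0 ≤ g.1 x) ∧
      ∀ n u, pt n = t → 0 < g.1 (Sum.inl (n, u)) := by
    by_cases hn : ∃ n₀, pt n₀ = t
    · obtain ⟨n₀, hn₀⟩ := hn
      refine ⟨⟨col n₀ (fun _ => 1), col_isB n₀ _⟩, ?_, ?_, ?_⟩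
      · by_contra hne
        obtain ⟨d, hd⟩ := hom_of_col ψ n₀ hne
        obtain ⟨h, hh⟩ := hcon1 d
        exact hh (hd h)
      · intro x
        rcases x with ⟨n, u⟩ | b
        · change 0 ≤ (if n = n₀ then (1:ℝ) else 0)
          split_ifs <;> norm_num
        · exact le_rfl
      · intro n u hnt
        have : n = n₀ := pt_injective (hnt.trans hn₀.symm)
        change 0 < (if n = n₀ then (1:ℝ) else 0)
        rw [if_pos this]
        norm_num
    · exact ⟨0, map_zero ψ, fun x => le_rfl, fun n u hnt => absurd ⟨n, hnt⟩ hn⟩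
  obtain ⟨g2, hg2, hg2n, hg2p⟩ : ∃ g : BA, ψ g = 0 ∧ (∀ x, 0 ≤ g.1 x) ∧
      ∀ b, lim (b 0) = t → 0 < g.1 (Sum.inr b) := by
    by_cases hA : ∃ A, lim A = t
    · obtain ⟨A, hA⟩ := hA
      refine ⟨⟨push A (fun _ => 1), push_isB A (IsB.const 1)⟩, hcon2 A, ?_, ?_⟩
      · intro x
        change 0 ≤ push A (fun _ => 1) x
        by_cases hx : ∃ z, x = e A z
        · obtain ⟨z, rfl⟩ := hx
          rw [push_e]
          norm_num
        · rw [push_of_not A _ hx]
      · intro b hb
        have : b 0 = A := lim_injective (hb.trans hA.symm)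
        have hb' : (Sum.inr b : Pnt) = e A (Sum.inr (fun n => b (n + 1))) := by
          rw [e_inr, ← this, shiftc_eta]
        change 0 < push A (fun _ => 1) (Sum.inr b)
        rw [hb', push_e]
        norm_num
    · exact ⟨0, map_zero ψ, fun x => le_rfl, fun b hb => absurd ⟨_, hb⟩ hA⟩
  let H : BA := (B - algebraMap ℝ BA t) * (B - algebraMap ℝ BA t) + g1 + g2
  have hH : ∀ x, H.1 x ≠ 0 := by
    intro x
    have hx : H.1 x = (bas x - t) * (bas x - t) + g1.1 x + g2.1 x := rfl
    rw [hx]
    have p1 := hg1n x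
    have p2 := hg2n x
    have p3 : 0 ≤ (bas x - t) * (bas x - t) := mul_self_nonneg _
    rcases x with ⟨n, u⟩ | b
    · by_cases hn : pt n = t
      · have := hg1p n u hn
        linarith
      · have : 0 < (bas (Sum.inl (n, u)) - t) * (bas (Sum.inl (n, u)) - t) :=
          mul_self_pos.mpr (sub_ne_zero.mpr hn)
        linarith
    · by_cases hn : lim (b 0) = t
      · have := hg2p b hn
        linarith
      · have : 0 < (bas (Sum.inr b) - t) * (bas (Sum.inr b) - t) :=
          mul_self_pos.mpr (sub_ne_zero.mpr hn)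
        linarith
  apply hom_ne_zero ψ hH
  change ψ ((B - algebraMap ℝ BA t) * (B - algebraMap ℝ BA t) + g1 + g2) = 0
  rw [map_add, map_add, map_mul, map_sub, hom_const, hg1, hg2, ← ht]
  ring

end Pool.Agent.Lib.MP_9f4369_gt
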