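import Pool.Agent.Lib.MP_9f4369_gt.Tasks

/-!
# The set of points and the functions of the counterexample

Overview of the argument.  The set `Pnt` consists of the points `(n, u)` with `n` a natural number and
`u` in the unit interval, and of the infinite sequences (branches) of tasks.  Every task `A` gives an
injection `e A` of `Pnt` into itself: it sends `(n, u)` to `(seq A n, (side A + u) / 2)` and puts `A`
in front of a branch.  A branch `b` has the basic neighbourhoods `Nb b k`: the points in the image of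
the composite of the first `k` injections whose index is at least `k`; all other points are isolated.

The class `IsB` consists of the functions that are continuous at all branches and such that, below
every finite list `s` of tasks, the values of `h ∘ eL s` at `(n, 0)` and `(n, 1)` agree in the limit
modulo sets of indices `n` that are small (index a nowhere dense set of rationals).

* `IsB` is a uniformly closed ring and lattice of functions, closed under inversion of functions
  without zeros.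
* `LocB.isB`: it is a local condition.  If the condition failed at `s` then it would fail at one of
  the two halves of the interval over a large set of indices, which is followed by a task, so it would
  fail at a child of `s`, and at last near a branch.
* `hom_classify`: every ring homomorphism to the reals is the evaluation at a point.
* The height `hgt`, which is `u` at `(n, u)`, is continuous and is not in the class.

So the algebra of all functions in `IsB` is closed under strong inversion, and it is not isomorphic to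
any ring of continuous functions.
-/

set_option autoImplicit false

namespace Pool.Agent.Lib.MP_9f4369_gt

open Set Filter Topology

/-- The unit interval. -/
abbrev UI : Type := Set.Icc (0:ℝ) 1

/-- The two halving maps of the unit interval. -/
noncomputable def half (j : Bool) (u : UI) : UI :=
  ⟨((if j then 1 else 0) + (u:ℝ)) / 2, by
    obtain ⟨u, h0, h1⟩ := u
    cases j <;> constructor <;> simp <;> linarith⟩

lemma half_coe (j : Bool) (u : UI) : ((half j u : UI) : ℝ) = ((if j then 1 else 0) + (u:ℝ)) / 2 :=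
  rfl

lemma half_injective (j : Bool) : Function.Injective (half j) := by
  intro u v h
  have h' := congrArg (fun w : UI => (w : ℝ)) h
  simp only [half_coe] at h'
  apply Subtype.ext
  linarith

/-- The two end points. -/
noncomputable def endpt (v : Bool) : UI :=
  if v then ⟨1, by norm_num, le_rfl⟩ else ⟨0, le_rfl, by norm_num⟩

lemma endpt_false_coe : ((endpt false : UI) : ℝ) = 0 := rfl
lemma endpt_true_coe : ((endpt true : UI) : ℝ) = 1 := rfl

lemma half_endpt (v : Bool) : half v (endpt v) = endpt v := by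
  apply Subtype.ext
  cases v <;> simp [half_coe, endpt]

lemma half_mid : half false (endpt true) = half true (endpt false) := by
  apply Subtype.ext
  simp [half_coe, endpt]

/-- The points. -/
abbrev Pnt : Type := (ℕ × UI) ⊕ (ℕ → Tk)

/-- Adding a first term. -/
def shiftc (A : Tk) (b : ℕ → Tk) : ℕ → Tk
  | 0 => A
  | n + 1 => b n

lemma shiftc_eta (b : ℕ → Tk) : shiftc (b 0) (fun n => b (n + 1)) = b := by
  funext n
  cases n <;> rfl

lemma shiftc_injective (A : Tk) : Function.Injective (shiftc A) := by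
  intro b c h
  funext n
  exact congrFun h (n + 1)

/-- The embedding attached to a task. -/
noncomputable def e (A : Tk) : Pnt → Pnt
  | Sum.inl p => Sum.inl (seq A p.1, half (side A) p.2)
  | Sum.inr b => Sum.inr (shiftc A b)

lemma e_inl (A : Tk) (n : ℕ) (u : UI) :
    e A (Sum.inl (n, u)) = Sum.inl (seq A n, half (side A) u) := rfl

lemma e_inr (A : Tk) (b : ℕ → Tk) : e A (Sum.inr b) = Sum.inr (shiftc A b) := rfl

lemma e_injective (A : Tk) : Function.Injective (e A) := by
  intro x y h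
  rcases x with ⟨n, u⟩ | b <;> rcases y with ⟨m, v⟩ | c
  · rw [e_inl, e_inl] at h
    have h1 := Sum.inl_injective h
    have h2 : seq A n = seq A m := congrArg Prod.fst h1
    have h3 : half (side A) u = half (side A) v := congrArg Prod.snd h1
    rw [(seq_strictMono A).injective h2, half_injective _ h3]
  · rw [e_inl, e_inr] at h
    exact absurd h (by simp)
  · rw [e_inl, e_inr] at h
    exact absurd h (by simp)
  · rw [e_inr, e_inr] at h
    rw [shiftc_injective A (Sum.inr_injective h)]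

/-- Iterated embedding along a list of tasks. -/
noncomputable def eL : List Tk → Pnt → Pnt
  | [], x => x
  | A :: s, x => e A (eL s x)

lemma eL_nil (x : Pnt) : eL [] x = x := rfl
lemma eL_cons (A : Tk) (s : List Tk) (x : Pnt) : eL (A :: s) x = e A (eL s x) := rfl

lemma eL_append (s t : List Tk) (x : Pnt) : eL (s ++ t) x = eL s (eL t x) := by
  induction s with
  | nil => rfl
  | cons A s ih => rw [List.cons_append, eL_cons, eL_cons, ih]

/-- Index part of the iterated embedding. -/
noncomputable def gL : List Tk → ℕ → ℕ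
  | [], n => n
  | A :: s, n => seq A (gL s n)

/-- Interval part of the iterated embedding. -/
noncomputable def hL : List Tk → UI → UI
  | [], u => u
  | A :: s, u => half (side A) (hL s u)

lemma eL_inl (s : List Tk) (n : ℕ) (u : UI) :
    eL s (Sum.inl (n, u)) = Sum.inl (gL s n, hL s u) := by
  induction s with
  | nil => rfl
  | cons A s ih => rw [eL_cons, ih, e_inl]; rfl

lemma gL_strictMono (s : List Tk) : StrictMono (gL s) := by
  induction s with
  | nil => exact strictMono_id
  | cons A s ih => exact (seq_strictMono A).comp ih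

/-- The first `k` terms of a sequence. -/
def pre (b : ℕ → Tk) (k : ℕ) : List Tk := (List.range k).map b

lemma pre_zero (b : ℕ → Tk) : pre b 0 = [] := rfl

lemma pre_succ (b : ℕ → Tk) (k : ℕ) : pre b (k + 1) = pre b k ++ [b k] := by
  unfold pre
  rw [List.range_succ, List.map_append]
  rfl

lemma pre_succ' (b : ℕ → Tk) (k : ℕ) : pre b (k + 1) = b 0 :: pre (fun n => b (n + 1)) k := by
  induction k with
  | zero => rfl
  | succ k ih => rw [pre_succ, ih, pre_succ]; rfl

lemma pre_shiftc (A : Tk) (b : ℕ → Tk) (k : ℕ) : pre (shiftc A b) (k + 1) = A :: pre b k := by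
  rw [pre_succ']
  rfl

lemma inr_eq_eL (k : ℕ) : ∀ b : ℕ → Tk, ∃ c, (Sum.inr b : Pnt) = eL (pre b k) (Sum.inr c) := by
  induction k with
  | zero => intro b; exact ⟨b, rfl⟩
  | succ k ih =>
    intro b
    obtain ⟨c, hc⟩ := ih (fun n => b (n + 1))
    refine ⟨c, ?_⟩
    rw [pre_succ', eL_cons, ← hc, e_inr, shiftc_eta]

/-- Basic neighbourhoods of the points `inr b`. -/
def Nb (b : ℕ → Tk) (k : ℕ) : Set Pnt :=
  {y | (∃ x, y = eL (pre b k) x) ∧ ∀ n u, y = Sum.inl (n, u) → k ≤ n}

lemma inr_mem_Nb (b : ℕ → Tk) (k : ℕ) : (Sum.inr b : Pnt) ∈ Nb b k := by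
  obtain ⟨c, hc⟩ := inr_eq_eL k b
  exact ⟨⟨_, hc⟩, fun n u h => absurd h (by simp)⟩

lemma Nb_succ (b : ℕ → Tk) (k : ℕ) : Nb b (k + 1) ⊆ Nb b k := by
  rintro y ⟨⟨x, hx⟩, hn⟩
  refine ⟨⟨eL [b k] x, ?_⟩, fun n u h => (Nat.le_succ k).trans (hn n u h)⟩
  rw [hx, pre_succ, eL_append]

lemma Nb_anti (b : ℕ → Tk) : Antitone (Nb b) := antitone_nat_of_succ_le (Nb_succ b)

lemma e_mem_Nb (A : Tk) (b : ℕ → Tk) (k : ℕ) {y : Pnt} (hy : y ∈ Nb b k) :
    e A y ∈ Nb (shiftc A b) k := by
  obtain ⟨⟨x, hx⟩, hn⟩ := hy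
  refine ⟨⟨eL [shiftc A b k] x, ?_⟩, ?_⟩
  · rw [← eL_append, ← pre_succ, pre_shiftc, eL_cons, hx]
  · intro n u h
    rcases y with ⟨m, v⟩ | c
    · rw [e_inl] at h
      have h1 := Sum.inl_injective h
      have h2 : seq A m = n := congrArg Prod.fst h1
      have h3 := hn m v rfl
      exact h3.trans (((seq_strictMono A).le_apply).trans h2.le)
    · rw [e_inr] at h
      exact absurd h (by simp)

lemma eL_inl_mem_Nb (b : ℕ → Tk) (k n : ℕ) (hn : k ≤ n) (u : UI) :
    eL (pre b k) (Sum.inl (n, u)) ∈ Nb b k := by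
  refine ⟨⟨_, rfl⟩, ?_⟩
  intro m v h
  rw [eL_inl] at h
  have h2 : gL (pre b k) n = m := congrArg Prod.fst (Sum.inl_injective h)
  exact hn.trans ((gL_strictMono _).le_apply.trans h2.le)

/-- Continuity at the points `inr b`. -/
def Cont (h : Pnt → ℝ) : Prop :=
  ∀ b : ℕ → Tk, ∀ ε : ℝ, 0 < ε → ∃ k : ℕ, ∀ y ∈ Nb b k, |h y - h (Sum.inr b)| < ε

lemma Cont.pull {h : Pnt → ℝ} (hh : Cont h) (A : Tk) : Cont (fun x => h (e A x)) := by
  intro b ε hε
  obtain ⟨k, hk⟩ := hh (shiftc A b) ε hε
  exact ⟨k, fun y hy => hk _ (e_mem_Nb A b k hy)⟩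

lemma Cont.pullL (s : List Tk) : ∀ {h : Pnt → ℝ}, Cont h → Cont (fun x => h (eL s x)) := by
  induction s with
  | nil => intro h hh; exact hh
  | cons A s ih => intro h hh; exact ih (hh.pull A)

/-- Difference of the values at the two end points. -/
noncomputable def dif (h : Pnt → ℝ) (n : ℕ) : ℝ :=
  h (Sum.inl (n, endpt false)) - h (Sum.inl (n, endpt true))

/-- The values at both end points agree in the limit, modulo small sets. -/
def Rel0 (h : Pnt → ℝ) : Prop := ∀ ε : ℝ, 0 < ε → Small {n | ε ≤ |dif h n|}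

/-- The same below every node. -/
def Rel (h : Pnt → ℝ) : Prop := ∀ s : List Tk, Rel0 (fun x => h (eL s x))

lemma Rel.pullL {h : Pnt → ℝ} (hh : Rel h) (s : List Tk) : Rel (fun x => h (eL s x)) := by
  intro t
  have := hh (s ++ t)
  simpa only [eL_append] using this

/-- The functions of the counterexample. -/
def IsB (h : Pnt → ℝ) : Prop := Cont h ∧ Rel h

lemma IsB.pullL {h : Pnt → ℝ} (hh : IsB h) (s : List Tk) : IsB (fun x => h (eL s x)) :=
  ⟨hh.1.pullL s, hh.2.pullL s⟩

/-- Following bad nodes to a branch. -/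
lemma exists_branch {Bad : List Tk → Prop} (h0 : Bad [])
    (hs : ∀ s, Bad s → ∃ A, Bad (s ++ [A])) : ∃ b : ℕ → Tk, ∀ k, Bad (pre b k) := by
  classical
  obtain ⟨A0, -⟩ := hs [] h0
  let F : List Tk → Tk := fun s => if h : Bad s then Classical.choose (hs s h) else A0
  have hF : ∀ s, Bad s → Bad (s ++ [F s]) := by
    intro s h
    have h1 := Classical.choose_spec (hs s h)
    have h2 : F s = Classical.choose (hs s h) := by
      simp only [F]
      rw [dif_pos h]
    rw [h2]
    exact h1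
  let S : ℕ → List Tk := fun n => Nat.rec [] (fun _ s => s ++ [F s]) n
  have hS0 : S 0 = [] := rfl
  have hSs : ∀ n, S (n + 1) = S n ++ [F (S n)] := fun n => rfl
  have hSb : ∀ n, Bad (S n) := by
    intro n
    induction n with
    | zero => rw [hS0]; exact h0
    | succ n ih => rw [hSs]; exact hF _ ih
  refine ⟨fun n => F (S n), fun k => ?_⟩
  have hpre : pre (fun n => F (S n)) k = S k := by
    induction k with
    | zero => rfl
    | succ k ih => rw [pre_succ, ih, hSs]
  rw [hpre]
  exact hSb k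

/-- One step of unboundedness. -/
lemma unbounded_step {h : Pnt → ℝ} (v : Bool) {E : Set ℕ} (hE : ¬ Small E)
    (H : ∀ M : ℕ, Small {n | n ∈ E ∧ |h (Sum.inl (n, endpt v))| ≤ M}) :
    ∃ A : Tk, ∀ M : ℕ, Small {n | |h (e A (Sum.inl (n, endpt v)))| ≤ M} := by
  let E' : ℕ → Set ℕ := fun M => {n | n ∈ E ∧ (M : ℝ) < |h (Sum.inl (n, endpt v))|}
  have hanti : Antitone E' := by
    intro a b hab n hn
    refine ⟨hn.1, lt_of_le_of_lt ?_ hn.2⟩
    exact_mod_cast hab
  have h0 : ¬ Small (E' 0) := by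
    intro hsm
    apply hE
    refine (hsm.union (H 0)).mono ?_
    intro n hn
    by_cases hc : ((0:ℕ):ℝ) < |h (Sum.inl (n, endpt v))|
    · exact Or.inl ⟨hn, hc⟩
    · exact Or.inr ⟨hn, not_lt.mp hc⟩
  have hs : ∀ m, Small (E' 0 \ E' m) := by
    intro m
    refine (H m).mono ?_
    rintro n ⟨⟨hnE, -⟩, hn2⟩
    refine ⟨hnE, ?_⟩
    by_contra hc
    exact hn2 ⟨hnE, not_le.mp hc⟩
  obtain ⟨A, hA, hAm⟩ := exists_task hanti h0 hs v
  refine ⟨A, fun M => ?_⟩
  refine Small.of_finite ((Set.finite_lt_nat M).subset ?_)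
  intro m hm
  have h1 := (hAm m).2
  have h2 : |h (e A (Sum.inl (m, endpt v)))| ≤ M := hm
  rw [e_inl, hA, half_endpt] at h2
  have h3 : (m : ℝ) < M := lt_of_lt_of_le h1 h2
  exact_mod_cast h3

/-- A continuous function is not unbounded modulo small sets. -/
lemma not_unbounded {h : Pnt → ℝ} (hh : Cont h) (v : Bool) :
    ¬ ∀ M : ℕ, Small {n | |h (Sum.inl (n, endpt v))| ≤ M} := by
  intro H
  obtain ⟨b, hb⟩ := exists_branch
    (Bad := fun s => ∀ M : ℕ, Small {n | |h (eL s (Sum.inl (n, endpt v)))| ≤ M}) H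
    (by
      intro s hs
      obtain ⟨A, hA⟩ := unbounded_step (h := fun x => h (eL s x)) v not_small_univ
        (fun M => (hs M).mono (fun n hn => hn.2))
      refine ⟨A, fun M => ?_⟩
      have := hA M
      simpa only [eL_append, eL_cons, eL_nil] using this)
  obtain ⟨k, hk⟩ := hh b 1 one_pos
  obtain ⟨M, hM⟩ := exists_nat_ge (|h (Sum.inr b)| + 1)
  refine not_small_Ici (k := k) ?_ (hb k M)
  intro n hn
  have h1 := hk _ (eL_inl_mem_Nb b k n hn (endpt v))
  have h2 : |h (eL (pre b k) (Sum.inl (n, endpt v)))| ≤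
      |h (eL (pre b k) (Sum.inl (n, endpt v))) - h (Sum.inr b)| + |h (Sum.inr b)| := by
    have := abs_add_le (h (eL (pre b k) (Sum.inl (n, endpt v))) - h (Sum.inr b)) (h (Sum.inr b))
    rwa [sub_add_cancel] at this
  change |h (eL (pre b k) (Sum.inl (n, endpt v)))| ≤ M
  linarith

lemma exists_bound {h : Pnt → ℝ} (hh : Cont h) (v : Bool) {E : Set ℕ} (hE : ¬ Small E) :
    ∃ M : ℕ, ¬ Small {n | n ∈ E ∧ |h (Sum.inl (n, endpt v))| ≤ M} := by
  by_contra hc
  push Not at hc
  obtain ⟨A, hA⟩ := unbounded_step v hE hc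
  exact not_unbounded (hh.pull A) v hA

/-! ### Closure properties -/

lemma Rel0.of_dif_eq {f g : Pnt → ℝ} (hf : Rel0 f) (h : ∀ n, dif g n = dif f n) : Rel0 g := by
  intro ε hε
  refine (hf ε hε).mono ?_
  intro n hn
  have hn' : ε ≤ |dif g n| := hn
  rw [h] at hn'
  exact hn'

lemma Rel0.of_le {f g : Pnt → ℝ} (hf : Rel0 f) (h : ∀ n, |dif g n| ≤ |dif f n|) : Rel0 g := by
  intro ε hε
  refine (hf ε hε).mono ?_
  intro n hn
  have hn' : ε ≤ |dif g n| := hn
  exact hn'.trans (h n)

lemma Rel0.of_le_add {f g h : Pnt → ℝ} (hf : Rel0 f) (hg : Rel0 g)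
    (H : ∀ n, |dif h n| ≤ |dif f n| + |dif g n|) : Rel0 h := by
  intro ε hε
  refine ((hf (ε / 2) (by positivity)).union (hg (ε / 2) (by positivity))).mono ?_
  intro n hn
  have hn' : ε ≤ |dif h n| := hn
  have h1 := H n
  by_cases hc : ε / 2 ≤ |dif f n|
  · exact Or.inl hc
  · refine Or.inr ?_
    change ε / 2 ≤ |dif g n|
    push Not at hc
    linarith

lemma Rel0.mul {f g : Pnt → ℝ} (hf : Rel0 f) (hg : Rel0 g) (cf : Cont f) (cg : Cont g) :
    Rel0 (fun x => f x * g x) := by
  intro ε hε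
  by_contra hE
  obtain ⟨M, hM⟩ := exists_bound cf false hE
  obtain ⟨M', hM'⟩ := exists_bound cg true hM
  have hpos : (0:ℝ) < ε / (2 * (M + 1)) := by positivity
  have hpos' : (0:ℝ) < ε / (2 * (M' + 1)) := by positivity
  apply hM'
  refine ((hg _ hpos).union (hf _ hpos')).mono ?_
  rintro n ⟨⟨hn, hnM⟩, hnM'⟩
  have hn' : ε ≤ |dif (fun x => f x * g x) n| := hn
  by_contra hc
  rw [Set.mem_union, not_or] at hc
  obtain ⟨h1, h2⟩ := hc
  have h1' : |dif g n| < ε / (2 * (M + 1)) := not_le.mp h1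
  have h2' : |dif f n| < ε / (2 * (M' + 1)) := not_le.mp h2
  have hd : dif (fun x => f x * g x) n =
      f (Sum.inl (n, endpt false)) * dif g n + g (Sum.inl (n, endpt true)) * dif f n := by
    unfold dif; ring
  have h3 : |dif (fun x => f x * g x) n| ≤ M * |dif g n| + M' * |dif f n| := by
    rw [hd]
    refine (abs_add_le _ _).trans ?_
    rw [abs_mul, abs_mul]
    gcongr
  have h4 : (M:ℝ) * |dif g n| ≤ M * (ε / (2 * (M + 1))) := by gcongr
  have h5 : (M':ℝ) * |dif f n| ≤ M' * (ε / (2 * (M' + 1))) := by gcongr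
  have h6 : (M:ℝ) * (ε / (2 * (M + 1))) < ε / 2 := by
    rw [mul_div_assoc', div_lt_div_iff₀ (by positivity) (by positivity)]
    nlinarith
  have h7 : (M':ℝ) * (ε / (2 * (M' + 1))) < ε / 2 := by
    rw [mul_div_assoc', div_lt_div_iff₀ (by positivity) (by positivity)]
    nlinarith
  linarith

lemma Rel0.inv {f : Pnt → ℝ} (hf : Rel0 f) (hne : ∀ x, f x ≠ 0) (cf : Cont (fun x => (f x)⁻¹)) :
    Rel0 (fun x => (f x)⁻¹) := by
  intro ε hε
  by_contra hE
  obtain ⟨M, hM⟩ := exists_bound cf false hE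
  obtain ⟨M', hM'⟩ := exists_bound cf true hM
  have hpos : (0:ℝ) < ε / ((M + 1) * (M' + 1)) := by positivity
  apply hM'
  refine (hf _ hpos).mono ?_
  rintro n ⟨⟨hn, hnM⟩, hnM'⟩
  have hn' : ε ≤ |dif (fun x => (f x)⁻¹) n| := hn
  change ε / ((M + 1) * (M' + 1)) ≤ |dif f n|
  have ha := hne (Sum.inl (n, endpt false))
  have hb := hne (Sum.inl (n, endpt true))
  have hd : dif (fun x => (f x)⁻¹) n =
      -((f (Sum.inl (n, endpt false)))⁻¹ * (f (Sum.inl (n, endpt true)))⁻¹ * dif f n) := by
    unfold dif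
    field_simp
    ring
  rw [hd, abs_neg, abs_mul, abs_mul] at hn'
  have h3 : |(f (Sum.inl (n, endpt false)))⁻¹| * |(f (Sum.inl (n, endpt true)))⁻¹| * |dif f n| ≤
      ((M:ℝ) + 1) * (M' + 1) * |dif f n| := by
    have h1 : |(f (Sum.inl (n, endpt false)))⁻¹| ≤ (M:ℝ) + 1 := by linarith
    have h2 : |(f (Sum.inl (n, endpt true)))⁻¹| ≤ (M':ℝ) + 1 := by linarith
    gcongr
  rw [div_le_iff₀ (by positivity)]
  linarith

lemma Cont.const (c : ℝ) : Cont (fun _ => c) := by
  intro b ε hε
  exact ⟨0, fun y _ => by simpa using hε⟩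

lemma Cont.add {f g : Pnt → ℝ} (hf : Cont f) (hg : Cont g) : Cont (fun x => f x + g x) := by
  intro b ε hε
  obtain ⟨k, hk⟩ := hf b (ε / 2) (by positivity)
  obtain ⟨l, hl⟩ := hg b (ε / 2) (by positivity)
  refine ⟨max k l, fun y hy => ?_⟩
  have h1 := hk y (Nb_anti b (le_max_left k l) hy)
  have h2 := hl y (Nb_anti b (le_max_right k l) hy)
  have : f y + g y - (f (Sum.inr b) + g (Sum.inr b)) =
      (f y - f (Sum.inr b)) + (g y - g (Sum.inr b)) := by ring
  rw [this]
  refine (abs_add_le _ _).trans_lt ?_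
  linarith

/-- Continuity in terms of filters. -/
def nbf (b : ℕ → Tk) : Filter Pnt := ⨅ k, 𝓟 (Nb b k)

lemma nbf_basis (b : ℕ → Tk) : (nbf b).HasBasis (fun _ => True) (Nb b) :=
  Filter.hasBasis_iInf_principal (directed_of_isDirected_le (fun _ _ h => Nb_anti b h))

lemma cont_iff {h : Pnt → ℝ} :
    Cont h ↔ ∀ b, Tendsto h (nbf b) (𝓝 (h (Sum.inr b))) := by
  constructor
  · intro hh b
    rw [(nbf_basis b).tendsto_iff Metric.nhds_basis_ball]
    intro ε hε
    obtain ⟨k, hk⟩ := hh b ε hε
    exact ⟨k, trivial, fun y hy => by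
      rw [Metric.mem_ball, Real.dist_eq]
      exact hk y hy⟩
  · intro hh b ε hε
    obtain ⟨k, -, hk⟩ := ((nbf_basis b).tendsto_iff Metric.nhds_basis_ball).mp (hh b) ε hε
    exact ⟨k, fun y hy => by
      have := hk y hy
      rwa [Metric.mem_ball, Real.dist_eq] at this⟩

lemma Cont.mul {f g : Pnt → ℝ} (hf : Cont f) (hg : Cont g) : Cont (fun x => f x * g x) := by
  rw [cont_iff] at *
  exact fun b => (hf b).mul (hg b)

lemma Cont.inv {f : Pnt → ℝ} (hf : Cont f) (hne : ∀ x, f x ≠ 0) : Cont (fun x => (f x)⁻¹) := by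
  rw [cont_iff] at *
  exact fun b => (hf b).inv₀ (hne _)

lemma Cont.sup {f g : Pnt → ℝ} (hf : Cont f) (hg : Cont g) : Cont (fun x => f x ⊔ g x) := by
  rw [cont_iff] at *
  exact fun b => (hf b).max (hg b)

lemma Cont.inf {f g : Pnt → ℝ} (hf : Cont f) (hg : Cont g) : Cont (fun x => f x ⊓ g x) := by
  rw [cont_iff] at *
  exact fun b => (hf b).min (hg b)

lemma IsB.const (c : ℝ) : IsB (fun _ => c) := by
  refine ⟨Cont.const c, fun s ε hε => ?_⟩
  refine Small.of_finite ?_
  have : {n : ℕ | ε ≤ |dif (fun _ : Pnt => c) n|} = ∅ := by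
    ext n
    simp only [dif, sub_self, abs_zero, Set.mem_ofPred_eq, Set.mem_empty_iff_false, iff_false]
    exact not_le.mpr hε
  rw [this]
  exact Set.finite_empty

lemma IsB.add {f g : Pnt → ℝ} (hf : IsB f) (hg : IsB g) : IsB (fun x => f x + g x) := by
  refine ⟨hf.1.add hg.1, fun s => (hf.2 s).of_le_add (hg.2 s) (fun n => ?_)⟩
  have : dif (fun x => f (eL s x) + g (eL s x)) n =
      dif (fun x => f (eL s x)) n + dif (fun x => g (eL s x)) n := by
    unfold dif; ring
  rw [this]
  exact abs_add_le _ _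

lemma IsB.mul {f g : Pnt → ℝ} (hf : IsB f) (hg : IsB g) : IsB (fun x => f x * g x) :=
  ⟨hf.1.mul hg.1, fun s => (hf.2 s).mul (hg.2 s) (hf.1.pullL s) (hg.1.pullL s)⟩

lemma IsB.inv {f : Pnt → ℝ} (hf : IsB f) (hne : ∀ x, f x ≠ 0) : IsB (fun x => (f x)⁻¹) :=
  ⟨hf.1.inv hne, fun s => (hf.2 s).inv (fun x => hne _) ((hf.1.inv hne).pullL s)⟩

lemma IsB.sup {f g : Pnt → ℝ} (hf : IsB f) (hg : IsB g) : IsB (fun x => f x ⊔ g x) := by
  refine ⟨hf.1.sup hg.1, fun s => (hf.2 s).of_le_add (hg.2 s) (fun n => ?_)⟩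
  unfold dif
  refine (abs_max_sub_max_le_max _ _ _ _).trans ?_
  refine max_le ?_ ?_
  · have := abs_nonneg (g (eL s (Sum.inl (n, endpt false))) - g (eL s (Sum.inl (n, endpt true))))
    linarith
  · have := abs_nonneg (f (eL s (Sum.inl (n, endpt false))) - f (eL s (Sum.inl (n, endpt true))))
    linarith

lemma IsB.inf {f g : Pnt → ℝ} (hf : IsB f) (hg : IsB g) : IsB (fun x => f x ⊓ g x) := by
  refine ⟨hf.1.inf hg.1, fun s => (hf.2 s).of_le_add (hg.2 s) (fun n => ?_)⟩
  unfold dif
  refine (abs_min_sub_min_le_max _ _ _ _).trans ?_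
  refine max_le ?_ ?_
  · have := abs_nonneg (g (eL s (Sum.inl (n, endpt false))) - g (eL s (Sum.inl (n, endpt true))))
    linarith
  · have := abs_nonneg (f (eL s (Sum.inl (n, endpt false))) - f (eL s (Sum.inl (n, endpt true))))
    linarith

/-- Uniform limits. -/
lemma IsB.of_uniform {h : Pnt → ℝ} (H : ∀ ε : ℝ, 0 < ε → ∃ g, IsB g ∧ ∀ x, |g x - h x| ≤ ε) :
    IsB h := by
  constructor
  · intro b ε hε
    obtain ⟨g, hg, hgh⟩ := H (ε / 4) (by positivity)
    obtain ⟨k, hk⟩ := hg.1 b (ε / 4) (by positivity)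
    refine ⟨k, fun y hy => ?_⟩
    have h1 := hk y hy
    have h2 := hgh y
    have h3 := hgh (Sum.inr b)
    have : h y - h (Sum.inr b) =
        (g y - g (Sum.inr b)) + (-(g y - h y) + (g (Sum.inr b) - h (Sum.inr b))) := by ring
    rw [this]
    refine (abs_add_le _ _).trans_lt ?_
    have h4 := abs_add_le (-(g y - h y)) (g (Sum.inr b) - h (Sum.inr b))
    rw [abs_neg] at h4
    linarith
  · intro s ε hε
    obtain ⟨g, hg, hgh⟩ := H (ε / 4) (by positivity)
    refine (hg.2 s (ε / 4) (by positivity)).mono ?_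
    intro n hn
    have hn' : ε ≤ |dif (fun x => h (eL s x)) n| := hn
    change ε / 4 ≤ |dif (fun x => g (eL s x)) n|
    have h2 := hgh (eL s (Sum.inl (n, endpt false)))
    have h3 := hgh (eL s (Sum.inl (n, endpt true)))
    have : dif (fun x => h (eL s x)) n = dif (fun x => g (eL s x)) n +
        (-(g (eL s (Sum.inl (n, endpt false))) - h (eL s (Sum.inl (n, endpt false)))) +
        (g (eL s (Sum.inl (n, endpt true))) - h (eL s (Sum.inl (n, endpt true))))) := by
      unfold dif; ring
    rw [this] at hn'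
    have h5 := abs_add_le (dif (fun x => g (eL s x)) n)
      (-(g (eL s (Sum.inl (n, endpt false))) - h (eL s (Sum.inl (n, endpt false)))) +
        (g (eL s (Sum.inl (n, endpt true))) - h (eL s (Sum.inl (n, endpt true)))))
    have h4 := abs_add_le (-(g (eL s (Sum.inl (n, endpt false))) - h (eL s (Sum.inl (n, endpt false)))))
      (g (eL s (Sum.inl (n, endpt true))) - h (eL s (Sum.inl (n, endpt true))))
    rw [abs_neg] at h4
    linarith

/-! ### The local property -/

/-- `h` agrees near each point `inr b` with a function of the class. -/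
def LocB (h : Pnt → ℝ) : Prop :=
  ∀ b : ℕ → Tk, ∃ g, IsB g ∧ ∃ k, ∀ y ∈ Nb b k, h y = g y

lemma LocB.pull {h : Pnt → ℝ} (hh : LocB h) (A : Tk) : LocB (fun x => h (e A x)) := by
  intro b
  obtain ⟨g, hg, k, hk⟩ := hh (shiftc A b)
  exact ⟨fun x => g (e A x), hg.pullL [A], k, fun y hy => hk _ (e_mem_Nb A b k hy)⟩

lemma LocB.pullL (s : List Tk) : ∀ {h : Pnt → ℝ}, LocB h → LocB (fun x => h (eL s x)) := by
  induction s with
  | nil => intro h hh; exact hh
  | cons A s ih => intro h hh; exact ih (hh.pull A)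

lemma LocB.cont {h : Pnt → ℝ} (hh : LocB h) : Cont h := by
  intro b ε hε
  obtain ⟨g, hg, k, hk⟩ := hh b
  obtain ⟨l, hl⟩ := hg.1 b ε hε
  refine ⟨max k l, fun y hy => ?_⟩
  rw [hk y (Nb_anti b (le_max_left k l) hy), hk (Sum.inr b) (inr_mem_Nb b k)]
  exact hl y (Nb_anti b (le_max_right k l) hy)

lemma bad_step {h : Pnt → ℝ} (H : ∃ ε : ℝ, 0 < ε ∧ ¬ Small {n | ε ≤ |dif h n|}) :
    ∃ A : Tk, ∃ ε : ℝ, 0 < ε ∧ ¬ Small {n | ε ≤ |dif (fun x => h (e A x)) n|} := by
  obtain ⟨ε, hε, hE⟩ := H
  -- the two halves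
  let E : Bool → Set ℕ := fun j =>
    {n | ε / 2 ≤ |h (Sum.inl (n, half j (endpt false))) - h (Sum.inl (n, half j (endpt true)))|}
  have hsplit : ∃ j, ¬ Small (E j) := by
    by_contra hc
    push Not at hc
    apply hE
    refine ((hc false).union (hc true)).mono ?_
    intro n hn
    have hn' : ε ≤ |dif h n| := hn
    by_contra hcc
    rw [Set.mem_union, not_or] at hcc
    obtain ⟨h1, h2⟩ := hcc
    have h1' : |h (Sum.inl (n, half false (endpt false))) -
        h (Sum.inl (n, half false (endpt true)))| < ε / 2 := not_le.mp h1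
    have h2' : |h (Sum.inl (n, half true (endpt false))) -
        h (Sum.inl (n, half true (endpt true)))| < ε / 2 := not_le.mp h2
    rw [half_endpt] at h1'
    rw [half_endpt] at h2'
    rw [half_mid] at h1'
    have h3 : dif h n =
        (h (Sum.inl (n, endpt false)) - h (Sum.inl (n, half true (endpt false)))) +
        (h (Sum.inl (n, half true (endpt false))) - h (Sum.inl (n, endpt true))) := by
      unfold dif; ring
    rw [h3] at hn'
    have h4 := abs_add_le
      (h (Sum.inl (n, endpt false)) - h (Sum.inl (n, half true (endpt false))))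
      (h (Sum.inl (n, half true (endpt false))) - h (Sum.inl (n, endpt true)))
    linarith
  obtain ⟨j, hj⟩ := hsplit
  obtain ⟨A, hA, hAm⟩ := exists_task_const hj j
  refine ⟨A, ε / 2, by positivity, ?_⟩
  refine not_small_Ici (k := 0) ?_
  intro n _
  have h1 := hAm n
  change ε / 2 ≤ |h (e A (Sum.inl (n, endpt false))) - h (e A (Sum.inl (n, endpt true)))|
  rw [e_inl, e_inl, hA]
  exact h1

lemma LocB.isB {h : Pnt → ℝ} (hh : LocB h) : IsB h := by
  refine ⟨hh.cont, ?_⟩
  intro s
  -- reduce to the root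
  suffices H : ∀ h' : Pnt → ℝ, LocB h' → Rel0 h' from H _ (hh.pullL s)
  clear hh s h
  intro h hh
  by_contra hc
  unfold Rel0 at hc
  push Not at hc
  obtain ⟨b, hb⟩ := exists_branch
    (Bad := fun s => ∃ ε : ℝ, 0 < ε ∧ ¬ Small {n | ε ≤ |dif (fun x => h (eL s x)) n|}) hc
    (by
      intro s hs
      obtain ⟨A, ε, hε, hA⟩ := bad_step (h := fun x => h (eL s x)) hs
      refine ⟨A, ε, hε, ?_⟩
      simpa only [eL_append, eL_cons, eL_nil] using hA)
  obtain ⟨g, hg, k, hk⟩ := hh b
  obtain ⟨ε, hε, hE⟩ := hb k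
  apply hE
  refine ((hg.2 (pre b k) ε hε).union (Small.of_finite (Set.finite_lt_nat k))).mono ?_
  intro n hn
  by_cases hnk : k ≤ n
  · refine Or.inl ?_
    have hn' : ε ≤ |h (eL (pre b k) (Sum.inl (n, endpt false))) -
        h (eL (pre b k) (Sum.inl (n, endpt true)))| := hn
    change ε ≤ |g (eL (pre b k) (Sum.inl (n, endpt false))) -
        g (eL (pre b k) (Sum.inl (n, endpt true)))|
    rw [hk _ (eL_inl_mem_Nb b k n hnk _), hk _ (eL_inl_mem_Nb b k n hnk _)] at hn'
    exact hn'
  · exact Or.inr (not_le.mp hnk)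

end Pool.Agent.Lib.MP_9f4369_gt
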