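import Mathlib

/-!
# Combinatorial part of the counterexample

`pt n` enumerates the rationals.  A set `E` of natural numbers is small when the set of rationals it
indexes is nowhere dense.  We build a type `Tk` of tasks, with for each task `A` a side `side A`, a
strictly increasing sequence `seq A` of natural numbers such that `pt (seq A m)` converges to a real
`lim A`, the map `lim` being injective, such that every decreasing sequence of sets which are large
in a coherent way is followed by one of the sequences `seq A`.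
-/

set_option autoImplicit false

namespace Pool.Agent.Lib.MP_9f4369_gt

open Set Filter Topology

/-- An enumeration of the rationals, as reals. -/
noncomputable def pt (n : ℕ) : ℝ := (((Denumerable.eqv ℚ).symm n : ℚ) : ℝ)

lemma pt_injective : Function.Injective pt := by
  intro a b h
  unfold pt at h
  have h' : (Denumerable.eqv ℚ).symm a = (Denumerable.eqv ℚ).symm b := by exact_mod_cast h
  exact (Denumerable.eqv ℚ).symm.injective h'

lemma pt_surj (q : ℚ) : ∃ n, pt n = (q : ℝ) :=
  ⟨Denumerable.eqv ℚ q, by simp [pt]⟩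

/-- Smallness of a set of natural numbers. -/
def Small (E : Set ℕ) : Prop := interior (closure (pt '' E)) = ∅

lemma Small.mono {E F : Set ℕ} (hF : Small F) (h : E ⊆ F) : Small E := by
  unfold Small at *
  have : interior (closure (pt '' E)) ⊆ interior (closure (pt '' F)) :=
    interior_mono (closure_mono (image_mono h))
  rw [hF] at this
  exact Set.subset_empty_iff.mp this

lemma Small.union {E F : Set ℕ} (hE : Small E) (hF : Small F) : Small (E ∪ F) := by
  unfold Small at *
  rw [image_union, closure_union, interior_union_isClosed_of_interior_empty isClosed_closure hF]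
  exact hE

lemma interior_of_countable {S : Set ℝ} (hS : S.Countable) : interior S = ∅ :=
  interior_eq_empty_iff_dense_compl.mpr (hS.dense_compl ℝ)

lemma Small.of_finite {E : Set ℕ} (hE : E.Finite) : Small E := by
  unfold Small
  have h : (pt '' E).Finite := hE.image _
  rw [h.isClosed.closure_eq]
  exact interior_of_countable h.countable

lemma not_small_univ : ¬ Small (Set.univ : Set ℕ) := by
  unfold Small
  have : closure (pt '' Set.univ) = Set.univ := by
    have hd : Dense (pt '' Set.univ) := by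
      have h1 : Dense (Set.range ((↑) : ℚ → ℝ)) := Rat.denseRange_cast
      refine h1.mono ?_
      rintro _ ⟨q, rfl⟩
      obtain ⟨n, hn⟩ := pt_surj q
      exact ⟨n, trivial, hn⟩
    exact hd.closure_eq
  rw [this, interior_univ]
  exact Set.univ_nonempty.ne_empty

lemma not_small_of_cofinite {E : Set ℕ} (hE : Eᶜ.Finite) : ¬ Small E := by
  intro h
  apply not_small_univ
  have := h.union (Small.of_finite hE)
  rwa [Set.union_compl_self] at this

lemma not_small_Ici {E : Set ℕ} {k : ℕ} (h : ∀ n, k ≤ n → n ∈ E) : ¬ Small E := by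
  apply not_small_of_cofinite
  refine (Set.finite_lt_nat k).subset ?_
  intro n hn
  by_contra hc
  exact hn (h n (not_lt.mp hc))

/-- A decreasing sequence of sets whose images are all dense in one common open set. -/
def Good (E : ℕ → Set ℕ) : Prop :=
  Antitone E ∧ (interior (⋂ m, closure (pt '' E m))).Nonempty

lemma good_of_not_small {E : ℕ → Set ℕ} (hE : Antitone E) (h0 : ¬ Small (E 0))
    (hs : ∀ m, Small (E 0 \ E m)) : Good E := by
  refine ⟨hE, ?_⟩
  obtain ⟨x, hx⟩ := Set.nonempty_iff_ne_empty.mpr h0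
  refine ⟨x, ?_⟩
  refine mem_interior.mpr ⟨interior (closure (pt '' E 0)), ?_, isOpen_interior, hx⟩
  intro y hy
  refine Set.mem_iInter.mpr fun m => ?_
  -- `y` is in the closure of the image of `E m`
  rw [mem_closure_iff]
  intro O hO hyO
  -- the open set `O ∩ interior (closure (pt '' E 0))` is not contained in `closure (pt '' (E 0 \ E m))`
  set V : Set ℝ := O ∩ interior (closure (pt '' E 0)) with hV
  have hVo : IsOpen V := hO.inter isOpen_interior
  have hVn : V.Nonempty := ⟨y, hyO, hy⟩
  have hnot : ¬ V ⊆ closure (pt '' (E 0 \ E m)) := by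
    intro hsub
    have h1 : V ⊆ interior (closure (pt '' (E 0 \ E m))) := interior_maximal hsub hVo
    have h2 := hs m
    unfold Small at h2
    rw [h2] at h1
    exact hVn.ne_empty (Set.subset_empty_iff.mp h1)
  obtain ⟨z, hzV, hz⟩ := Set.not_subset.mp hnot
  have hV2 : IsOpen (V ∩ (closure (pt '' (E 0 \ E m)))ᶜ) :=
    hVo.inter isClosed_closure.isOpen_compl
  have hz0 : z ∈ closure (pt '' E 0) := interior_subset hzV.2
  obtain ⟨w, ⟨hwV, hwc⟩, ⟨n, hn, rfl⟩⟩ := mem_closure_iff.mp hz0 _ hV2 ⟨hzV, hz⟩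
  refine ⟨pt n, hwV.1, ?_⟩
  by_cases hnm : n ∈ E m
  · exact ⟨n, hnm, rfl⟩
  · have hmem : pt n ∈ pt '' (E 0 \ E m) := ⟨n, ⟨hn, hnm⟩, rfl⟩
    exact absurd (subset_closure hmem) hwc

/-- The type of tasks. -/
def Tk : Type := {τ : Bool × (ℕ → Set ℕ) // Good τ.2}

/-- The group of rationals inside the reals. -/
noncomputable def QH : AddSubgroup ℝ := (Rat.castHom ℝ).toAddMonoidHom.range

lemma mem_QH (q : ℚ) : (q : ℝ) ∈ QH := ⟨q, rfl⟩

lemma mk_Tk_le : Cardinal.mk Tk ≤ Cardinal.continuum := by
  have h1 : Cardinal.mk Tk ≤ Cardinal.mk (Bool × (ℕ → Set ℕ)) :=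
    Cardinal.mk_le_of_injective Subtype.val_injective
  refine h1.trans ?_
  have h2 : Cardinal.mk (Set ℕ) = Cardinal.continuum := by simp
  have h3 : Cardinal.mk (ℕ → Set ℕ) = Cardinal.continuum := by
    rw [Cardinal.mk_arrow]
    simp [h2]
  rw [Cardinal.mk_prod, h3]
  simp

lemma le_mk_quot : Cardinal.continuum ≤ Cardinal.mk (ℝ ⧸ QH) := by
  have e : ℝ ≃ (ℝ ⧸ QH) × QH := AddSubgroup.addGroupEquivQuotientProdAddSubgroup
  have h1 : Cardinal.mk ℝ = Cardinal.mk (ℝ ⧸ QH) * Cardinal.mk QH := by
    rw [Cardinal.mk_congr e, Cardinal.mk_prod]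
    simp
  have hc : Cardinal.mk QH ≤ Cardinal.aleph0 := by
    have : Countable QH := by
      have : (QH : Set ℝ) = Set.range ((↑) : ℚ → ℝ) := rfl
      have h : (QH : Set ℝ).Countable := by rw [this]; exact Set.countable_range _
      exact h.to_subtype
    exact Cardinal.mk_le_aleph0
  by_contra hlt
  push Not at hlt
  rw [Cardinal.mk_real] at h1
  have h2 : Cardinal.mk (ℝ ⧸ QH) * Cardinal.mk QH < Cardinal.continuum := by
    refine Cardinal.mul_lt_of_lt Cardinal.aleph0_le_continuum hlt ?_
    exact hc.trans_lt Cardinal.aleph0_lt_continuum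
  exact absurd h1 h2.ne'

lemma exists_code : ∃ κ : Tk → ℝ ⧸ QH, Function.Injective κ := by
  have h : Cardinal.mk Tk ≤ Cardinal.mk (ℝ ⧸ QH) := mk_Tk_le.trans le_mk_quot
  obtain ⟨f⟩ := Cardinal.le_def _ _ |>.mp h
  exact ⟨f, f.injective⟩

lemma exists_mem_class (c : ℝ ⧸ QH) (W : Set ℝ) (hW : IsOpen W) (hne : W.Nonempty) :
    ∃ r ∈ W, (QuotientAddGroup.mk r : ℝ ⧸ QH) = c := by
  obtain ⟨r0, rfl⟩ := QuotientAddGroup.mk_surjective c
  have hopen : IsOpen ((fun x => r0 + x) ⁻¹' W) := hW.preimage (by fun_prop)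
  have hn : ((fun x => r0 + x) ⁻¹' W).Nonempty := by
    obtain ⟨w, hw⟩ := hne
    exact ⟨w - r0, by simpa using hw⟩
  obtain ⟨_, hq, ⟨q, rfl⟩⟩ := (Rat.denseRange_cast (𝕜 := ℝ)).inter_open_nonempty _ hopen hn
  refine ⟨r0 + q, hq, ?_⟩
  rw [QuotientAddGroup.eq]
  have : -(r0 + (q:ℝ)) + r0 = ((-q : ℚ) : ℝ) := by push_cast; ring
  rw [this]
  exact mem_QH _

/-- Existence of an injective choice of reals. -/
lemma exists_lim : ∃ x : Tk → ℝ, Function.Injective x ∧
    ∀ τ : Tk, x τ ∈ interior (⋂ m, closure (pt '' τ.1.2 m)) := by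
  obtain ⟨κ, hκ⟩ := exists_code
  have h : ∀ τ : Tk, ∃ r ∈ interior (⋂ m, closure (pt '' τ.1.2 m)),
      (QuotientAddGroup.mk r : ℝ ⧸ QH) = κ τ := fun τ =>
    exists_mem_class (κ τ) _ isOpen_interior τ.2.2
  choose x hx hxk using h
  refine ⟨x, ?_, hx⟩
  intro a b hab
  apply hκ
  rw [← hxk a, ← hxk b, hab]

lemma exists_seq (τ : Tk) (x : ℝ) (hx : x ∈ interior (⋂ m, closure (pt '' τ.1.2 m))) :
    ∃ g : ℕ → ℕ, StrictMono g ∧ ∀ m, g m ∈ τ.1.2 m ∧ |pt (g m) - x| < 1 / ((m : ℝ) + 1) := by
  have hfreq : ∀ m : ℕ, ∃ᶠ n in atTop, n ∈ τ.1.2 m ∧ |pt n - x| < 1 / ((m : ℝ) + 1) := by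
    intro m
    rw [Nat.frequently_atTop_iff_infinite]
    by_contra hfin
    rw [Set.not_infinite] at hfin
    have hpos : (0:ℝ) < 1 / ((m : ℝ) + 1) := by positivity
    -- an open set on which the image is dense
    set V : Set ℝ := (interior (⋂ m, closure (pt '' τ.1.2 m)) ∩ Metric.ball x (1 / ((m : ℝ) + 1)))
      with hV
    have hVo : IsOpen V := isOpen_interior.inter Metric.isOpen_ball
    have hxV : x ∈ V := ⟨hx, Metric.mem_ball_self hpos⟩
    set S : Set ℝ := pt '' {n | n ∈ τ.1.2 m ∧ |pt n - x| < 1 / ((m : ℝ) + 1)} with hS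
    have hSf : S.Finite := hfin.image _
    have hO : IsOpen (V ∩ Sᶜ) := hVo.inter hSf.isClosed.isOpen_compl
    have hne : (V ∩ Sᶜ).Nonempty := by
      by_contra hemp
      rw [Set.not_nonempty_iff_eq_empty] at hemp
      have hsub : V ⊆ S := by
        intro y hy
        by_contra hyS
        have : y ∈ V ∩ Sᶜ := ⟨hy, hyS⟩
        rw [hemp] at this
        exact this
      have hVc : V.Countable := (hSf.subset hsub).countable
      have h1 := interior_of_countable hVc
      rw [hVo.interior_eq] at h1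
      rw [h1] at hxV
      exact hxV
    obtain ⟨y, hyV, hyS⟩ := hne
    have hycl : y ∈ closure (pt '' τ.1.2 m) := Set.mem_iInter.mp (interior_subset hyV.1) m
    obtain ⟨z, ⟨hzV, hzS⟩, ⟨n, hn, rfl⟩⟩ := mem_closure_iff.mp hycl _ hO ⟨hyV, hyS⟩
    apply hzS
    refine ⟨n, ⟨hn, ?_⟩, rfl⟩
    have := hzV.2
    rwa [Metric.mem_ball, Real.dist_eq] at this
  exact extraction_forall_of_frequently hfreq

/-- The limit of a task. -/
noncomputable def lim : Tk → ℝ := Classical.choose exists_lim

lemma lim_injective : Function.Injective lim := (Classical.choose_spec exists_lim).1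

lemma lim_mem (τ : Tk) : lim τ ∈ interior (⋂ m, closure (pt '' τ.1.2 m)) :=
  (Classical.choose_spec exists_lim).2 τ

/-- The sequence of a task. -/
noncomputable def seq (τ : Tk) : ℕ → ℕ := Classical.choose (exists_seq τ (lim τ) (lim_mem τ))

lemma seq_strictMono (τ : Tk) : StrictMono (seq τ) :=
  (Classical.choose_spec (exists_seq τ (lim τ) (lim_mem τ))).1

lemma seq_mem (τ : Tk) (m : ℕ) : seq τ m ∈ τ.1.2 m :=
  ((Classical.choose_spec (exists_seq τ (lim τ) (lim_mem τ))).2 m).1

lemma seq_close (τ : Tk) (m : ℕ) : |pt (seq τ m) - lim τ| < 1 / ((m : ℝ) + 1) :=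
  ((Classical.choose_spec (exists_seq τ (lim τ) (lim_mem τ))).2 m).2

/-- The side of a task. -/
def side (τ : Tk) : Bool := τ.1.1

lemma seq_tendsto (τ : Tk) : Tendsto (fun m => pt (seq τ m)) atTop (𝓝 (lim τ)) := by
  rw [tendsto_iff_dist_tendsto_zero]
  refine squeeze_zero (fun _ => dist_nonneg) (fun m => ?_)
    (tendsto_one_div_add_atTop_nhds_zero_nat (𝕜 := ℝ))
  rw [Real.dist_eq]
  exact (seq_close τ m).le

/-- Ranges of sequences of different tasks are almost disjoint. -/
lemma range_inter_finite {σ τ : Tk} (h : σ ≠ τ) : (range (seq σ) ∩ range (seq τ)).Finite := by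
  by_contra hinf
  have hinf' : (range (seq σ) ∩ range (seq τ)).Infinite := hinf
  have hne : lim σ ≠ lim τ := fun h' => h (lim_injective h')
  have hd : 0 < |lim σ - lim τ| / 2 := by
    have := abs_pos.mpr (sub_ne_zero.mpr hne)
    positivity
  obtain ⟨M, hM⟩ := exists_nat_one_div_lt hd
  -- all but finitely many elements of the intersection have large indices
  have hfin : (seq σ '' {m | m ≤ M} ∪ seq τ '' {m | m ≤ M}).Finite :=
    ((Set.finite_le_nat M).image _).union ((Set.finite_le_nat M).image _)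
  obtain ⟨n, hn, hn2⟩ := (hinf'.sdiff hfin).nonempty
  obtain ⟨⟨a, ha⟩, ⟨b, hb⟩⟩ := hn
  have haM : M < a := by
    by_contra hc
    exact hn2 (Or.inl ⟨a, not_lt.mp hc, ha⟩)
  have hbM : M < b := by
    by_contra hc
    exact hn2 (Or.inr ⟨b, not_lt.mp hc, hb⟩)
  have h1 := seq_close σ a
  have h2 := seq_close τ b
  rw [ha] at h1
  rw [hb] at h2
  have hMa : 1 / ((a:ℝ) + 1) ≤ 1 / ((M:ℝ) + 1) := by
    apply one_div_le_one_div_of_le (by positivity)
    have : (M:ℝ) ≤ a := by exact_mod_cast haM.le
    linarith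
  have hMb : 1 / ((b:ℝ) + 1) ≤ 1 / ((M:ℝ) + 1) := by
    apply one_div_le_one_div_of_le (by positivity)
    have : (M:ℝ) ≤ b := by exact_mod_cast hbM.le
    linarith
  have h3 : |lim σ - lim τ| ≤ |pt n - lim σ| + |pt n - lim τ| := by
    have : lim σ - lim τ = -(pt n - lim σ) + (pt n - lim τ) := by ring
    rw [this]
    refine (abs_add_le _ _).trans ?_
    rw [abs_neg]
  linarith

/-- The range of the sequence of a task is small. -/
lemma small_range_seq (τ : Tk) : Small (range (seq τ)) := by
  unfold Small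
  have himg : pt '' range (seq τ) = range (fun m => pt (seq τ m)) := by
    rw [← Set.range_comp]
    rfl
  rw [himg]
  have hcl : closure (range (fun m => pt (seq τ m))) ⊆
      insert (lim τ) (range (fun m => pt (seq τ m))) := by
    apply closure_minimal (Set.subset_insert _ _)
    exact ((seq_tendsto τ).isCompact_insert_range).isClosed
  have hc : (closure (range (fun m => pt (seq τ m)))).Countable :=
    ((Set.countable_range _).insert _).mono hcl
  exact interior_of_countable hc

/-- Every coherent decreasing sequence of large sets is followed by a task, on each side. -/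
lemma exists_task {E : ℕ → Set ℕ} (hE : Antitone E) (h0 : ¬ Small (E 0))
    (hs : ∀ m, Small (E 0 \ E m)) (j : Bool) :
    ∃ τ : Tk, side τ = j ∧ ∀ m, seq τ m ∈ E m :=
  ⟨⟨(j, E), good_of_not_small hE h0 hs⟩, rfl, fun m => seq_mem ⟨(j, E), _⟩ m⟩

lemma exists_task_const {E : Set ℕ} (h0 : ¬ Small E) (j : Bool) :
    ∃ τ : Tk, side τ = j ∧ ∀ m, seq τ m ∈ E := by
  refine exists_task (E := fun _ => E) (fun _ _ _ => le_rfl) h0 (fun m => ?_) j
  have : E \ E = ∅ := Set.sdiff_self
  change Small (E \ E)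
  rw [this]
  exact Small.of_finite Set.finite_empty

end Pool.Agent.Lib.MP_9f4369_gt
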